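import Mathlib

/-!
# The polynomials attached to the double discriminant
-/

namespace Pool.Agent.T2H54.DD

open Polynomial

section

variable {L : Type*} [CommRing L]

/-- The polynomial `Σ_{i ≤ n} a_i x^i` in which the coefficient of `x^k` is replaced by `y`. -/
noncomputable def fP (a : ℕ → L) (n k : ℕ) (y : L) : L[X] :=
  ∑ i ∈ Finset.range (n + 1), monomial i (if i = k then y else a i)

/-- The polynomial `Σ_{i ≤ n} (i - k) a_i x^i`. -/
noncomputable def RP (a : ℕ → L) (n k : ℕ) : L[X] :=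
  ∑ i ∈ Finset.range (n + 1), monomial i (((i : L) - k) * a i)

theorem coeff_fP (a : ℕ → L) (n k : ℕ) (y : L) (i : ℕ) :
    (fP a n k y).coeff i = if i ≤ n then (if i = k then y else a i) else 0 := by
  unfold fP
  simp only [finsetSum_coeff, coeff_monomial]
  rw [Finset.sum_ite_eq']
  simp only [Finset.mem_range, Nat.lt_succ_iff]

theorem coeff_RP (a : ℕ → L) (n k : ℕ) (i : ℕ) :
    (RP a n k).coeff i = if i ≤ n then ((i : L) - k) * a i else 0 := by
  unfold RP
  simp only [finsetSum_coeff, coeff_monomial]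
  rw [Finset.sum_ite_eq']
  simp only [Finset.mem_range, Nat.lt_succ_iff]

theorem natDegree_fP_le (a : ℕ → L) (n k : ℕ) (y : L) : (fP a n k y).natDegree ≤ n := by
  rw [natDegree_le_iff_coeff_eq_zero]
  intro i hi
  rw [coeff_fP, if_neg (by omega)]

theorem natDegree_RP_le (a : ℕ → L) (n k : ℕ) : (RP a n k).natDegree ≤ n := by
  rw [natDegree_le_iff_coeff_eq_zero]
  intro i hi
  rw [coeff_RP, if_neg (by omega)]

theorem natDegree_fP (a : ℕ → L) {n k : ℕ} (y : L) (hk : k < n) (ha : a n ≠ 0) :
    (fP a n k y).natDegree = n := by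
  refine le_antisymm (natDegree_fP_le a n k y) (le_natDegree_of_ne_zero ?_)
  rw [coeff_fP, if_pos le_rfl, if_neg hk.ne']
  exact ha

theorem fP_eq_add (a : ℕ → L) {n k : ℕ} (hk : k ≤ n) (y : L) :
    fP a n k y = fP a n k 0 + C y * X ^ k := by
  ext i
  rw [coeff_add, coeff_fP, coeff_fP, coeff_C_mul, coeff_X_pow]
  by_cases h1 : i ≤ n
  · by_cases h2 : i = k
    · rw [if_pos h1, if_pos h1, if_pos h2, if_pos h2, if_pos h2]
      ring
    · simp [h1, h2]
  · have h2 : i ≠ k := by omega
    simp [h1, h2]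

theorem RP_eq (a : ℕ → L) (n k : ℕ) (y : L) :
    RP a n k = X * derivative (fP a n k y) - C (k : L) * fP a n k y := by
  ext i
  rw [coeff_sub, coeff_C_mul, coeff_fP, coeff_RP]
  have h0 : (X * derivative (fP a n k y)).coeff i = (i : L) * (fP a n k y).coeff i := by
    rcases i with _ | i
    · simp
    · rw [coeff_X_mul, coeff_derivative]
      push_cast
      ring
  rw [h0, coeff_fP]
  by_cases h1 : i ≤ n
  · by_cases h2 : i = k
    · simp [h2]
    · simp [h1, h2]
      ring
  · simp [h1]

variable {M : Type*} [CommRing M]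

theorem fP_map (φ : L →+* M) (a : ℕ → L) (n k : ℕ) (y : L) :
    (fP a n k y).map φ = fP (fun i => φ (a i)) n k (φ y) := by
  ext i
  rw [coeff_map, coeff_fP, coeff_fP]
  split_ifs <;> simp

theorem RP_map (φ : L →+* M) (a : ℕ → L) (n k : ℕ) :
    (RP a n k).map φ = RP (fun i => φ (a i)) n k := by
  ext i
  rw [coeff_map, coeff_RP, coeff_RP]
  split_ifs <;> simp

end

end Pool.Agent.T2H54.DD
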