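import Mathlib
import Pool.Agent.T2H54.DD.Poly

/-!
# Discriminants as products
-/

namespace Pool.Agent.T2H54.DD

open Polynomial

/-- Two elements agree up to sign. -/
def PM {R : Type*} [Ring R] (a b : R) : Prop := a = b ∨ a = -b

theorem PM.refl {R : Type*} [Ring R] (a : R) : PM a a := Or.inl rfl

theorem PM.neg_one_pow_mul {R : Type*} [Ring R] (e : ℕ) (a : R) : PM ((-1) ^ e * a) a := by
  rcases neg_one_pow_eq_or R e with h | h <;> rw [h]
  · left; simp
  · right; simp

theorem PM.symm {R : Type*} [Ring R] {a b : R} (h : PM a b) : PM b a := by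
  rcases h with h | h
  · left; exact h.symm
  · right; rw [h]; simp

theorem PM.trans {R : Type*} [Ring R] {a b c : R} (h : PM a b) (h' : PM b c) : PM a c := by
  rcases h with h | h <;> rcases h' with h' | h' <;> rw [h, h'] <;> simp [PM]

theorem PM.mul {R : Type*} [CommRing R] {a b c d : R} (h : PM a b) (h' : PM c d) :
    PM (a * c) (b * d) := by
  rcases h with h | h <;> rcases h' with h' | h' <;> rw [h, h'] <;> simp [PM]

theorem PM.of_mul {R : Type*} [CommRing R] [IsDomain R] {a b c : R} (hc : c ≠ 0)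
    (h : PM (c * a) (c * b)) : PM a b := by
  rcases h with h | h
  · left; exact mul_left_cancel₀ hc h
  · right; exact mul_left_cancel₀ hc (by rw [h]; ring)

theorem resultant_prod_eq {B : Type*} [CommRing B] [Nontrivial B] {ι : Type*} [Fintype ι]
    (x : ι → B) (c : B) (g : B[X]) (n : ℕ) (hg : g.natDegree ≤ n) :
    (C c * ∏ j, (X - C (x j))).resultant g (Fintype.card ι) n = c ^ n * ∏ j, g.eval (x j) := by
  rw [resultant_C_mul_left]
  congr 1
  have h1 : (∏ j : ι, (X - C (x j)) : B[X]).natDegree = Fintype.card ι := by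
    rw [natDegree_prod_of_monic _ _ (fun j _ => monic_X_sub_C (x j))]
    simp
  have h2 := resultant_prod_left Finset.univ (fun j => (X - C (x j) : B[X])) g n
    (by simp [leadingCoeff_X_sub_C]) hg
  rw [h1] at h2
  rw [h2]
  refine Finset.prod_congr rfl (fun j _ => ?_)
  rw [natDegree_X_sub_C, resultant_X_sub_C_left _ _ _ hg]

theorem eval_derivative_prod {K : Type*} [CommRing K] {ι : Type*} [Fintype ι] [DecidableEq ι]
    (y : ι → K) (b : K) (i : ι) :
    (derivative (C b * ∏ j, (X - C (y j)))).eval (y i)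
      = b * ∏ j ∈ Finset.univ.erase i, (y i - y j) := by
  rw [derivative_C_mul, eval_C_mul]
  congr 1
  rw [derivative_prod_finset, eval_finsetSum, Finset.sum_eq_single i]
  · simp [eval_prod]
  · intro j _ hj
    rw [eval_mul, eval_prod, Finset.prod_eq_zero (i := i)]
    · simp
    · simp [hj.symm]
    · simp
  · simp

/-- The discriminant of a split polynomial. -/
theorem discr_prod {K : Type*} [Field K] [CharZero K] {ι : Type*} [Fintype ι] [DecidableEq ι]
    (hι : 0 < Fintype.card ι) (y : ι → K) {b : K} (hb : b ≠ 0) :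
    PM ((C b * ∏ j, (X - C (y j))).discr)
      (b ^ (2 * (Fintype.card ι - 1)) * ∏ i, ∏ j ∈ Finset.univ.erase i, (y i - y j)) := by
  set D : K[X] := C b * ∏ j, (X - C (y j)) with hD
  set d := Fintype.card ι with hd
  have hmon : (∏ j : ι, (X - C (y j)) : K[X]).Monic :=
    monic_prod_of_monic _ _ (fun j _ => monic_X_sub_C (y j))
  have h1 : (∏ j : ι, (X - C (y j)) : K[X]).natDegree = d := by
    rw [natDegree_prod_of_monic _ _ (fun j _ => monic_X_sub_C (y j))]
    simp [hd]
  have hdeg : D.natDegree = d := by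
    rw [hD, natDegree_C_mul hb, h1]
  have hlc : D.leadingCoeff = b := by
    rw [hD, leadingCoeff_mul, leadingCoeff_C, hmon.leadingCoeff, mul_one]
  have hpos : 0 < D.degree := by
    rw [← natDegree_pos_iff_degree_pos, hdeg]
    exact hι
  have h2 := resultant_deriv hpos
  rw [hdeg, hlc] at h2
  have h3 : D.resultant (derivative D) d (d - 1)
      = b ^ (d - 1) * ∏ i, (derivative D).eval (y i) := by
    rw [hD, hd]
    apply resultant_prod_eq
    rw [← hD, ← hd, ← hdeg]
    exact natDegree_derivative_le D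
  have h4 : ∏ i, (derivative D).eval (y i)
      = b ^ d * ∏ i, ∏ j ∈ Finset.univ.erase i, (y i - y j) := by
    rw [hd, ← Finset.card_univ, ← Finset.prod_const, ← Finset.prod_mul_distrib]
    exact Finset.prod_congr rfl (fun i _ => eval_derivative_prod y b i)
  rw [h4] at h3
  rw [h3] at h2
  refine PM.of_mul hb ?_
  have h5 : PM ((-1) ^ (d * (d - 1) / 2) * (b * D.discr)) (b * D.discr) :=
    PM.neg_one_pow_mul _ _
  refine h5.symm.trans ?_
  rw [← mul_assoc, ← h2]
  left
  have h6 : b ^ (d - 1) * b ^ d = b * b ^ (2 * (d - 1)) := by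
    rw [← pow_add, ← pow_succ']
    congr 1
    omega
  linear_combination (∏ i, ∏ j ∈ Finset.univ.erase i, (y i - y j)) * h6

/-- The discriminant in `x` of the polynomial with coefficient `Y` at `x^k`, `k ≥ 1`. -/
theorem discr_fP_pos {K : Type*} [Field K] [CharZero K] {ι : Type*} [Fintype ι] [DecidableEq ι]
    (a : ℕ → K) {n k : ℕ} (hk0 : 0 < k) (hk : k < n) (ha0 : a 0 ≠ 0) (han : a n ≠ 0)
    (x : ι → K) (hx : ∀ j, x j ≠ 0) (hι : Fintype.card ι = n) (c : K)
    (hR : RP a n k = C c * ∏ j, (X - C (x j))) :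
    ∃ b : K, PM (b * (a 0 * a n)) (c ^ n * ∏ j, x j ^ k) ∧
      (fP (fun i => C (a i)) n k (X : K[X])).discr
        = C b * ∏ j, (X - C (-((fP a n k 0).eval (x j) / x j ^ k))) := by
  set f : K[X][X] := fP (fun i => C (a i)) n k (X : K[X]) with hf
  have hfn : f.natDegree = n := natDegree_fP _ _ hk (by simpa using han)
  have hflc : f.leadingCoeff = C (a n) := by
    rw [leadingCoeff, hfn, hf, coeff_fP, if_pos le_rfl, if_neg hk.ne']
  have hpos : 0 < f.degree := by
    rw [← natDegree_pos_iff_degree_pos, hfn]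
    omega
  have h1 := resultant_deriv hpos
  rw [hfn, hflc] at h1
  have hf'n : (derivative f).natDegree = n - 1 := by
    rw [natDegree_derivative, hfn]
  have h2 : f.resultant (X * derivative f) n n
      = f.resultant X n 1 * f.resultant (derivative f) n (n - 1) := by
    have := resultant_mul_right f X (derivative f) n hfn.le
    rw [natDegree_X, hf'n, show 1 + (n - 1) = n by omega] at this
    exact this
  have h3 : f.resultant X n 1 = (-1) ^ n * C (a 0) := by
    have := resultant_X_sub_C_right f n (0 : K[X]) hfn.le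
    rw [C_0, sub_zero] at this
    rw [this, ← coeff_zero_eq_eval_zero, hf, coeff_fP, if_pos (by omega), if_neg (by omega)]
  have h4 : f.resultant (X * derivative f + f * (-C (k : K[X]))) n n
      = f.resultant (X * derivative f) n n := by
    apply resultant_add_mul_right
    · rw [natDegree_neg, natDegree_C]
      omega
    · exact hfn.le
  have h5 : X * derivative f + f * (-C (k : K[X])) = (RP a n k).map C := by
    rw [RP_map, RP_eq (fun i => C (a i)) n k X]
    ring
  have h6 : ((RP a n k).map (C : K →+* K[X])).resultant f n n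
      = C c ^ n * ∏ j, f.eval (C (x j)) := by
    rw [hR]
    have : (C c * ∏ j, (X - C (x j)) : K[X]).map (C : K →+* K[X])
        = C (C c) * ∏ j, (X - C (C (x j))) := by
      simp [Polynomial.map_mul, Polynomial.map_prod]
    rw [this]
    nth_rewrite 1 [← hι]
    exact resultant_prod_eq (fun j => (C (x j) : K[X])) (C c) f n hfn.le
  have h7 : ∀ j, f.eval (C (x j)) = C (x j ^ k) * (X - C (-((fP a n k 0).eval (x j) / x j ^ k))) := by
    intro j
    have e1 : f = (fP a n k 0).map C + C X * X ^ k := by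
      rw [hf, fP_eq_add _ hk.le, fP_map]
      simp
    rw [e1, eval_add, eval_mul, eval_C, eval_pow, eval_X, eval_map, eval₂_hom, ← C_pow, C_neg, sub_neg_eq_add,
      mul_add, ← C_mul, mul_div_cancel₀ _ (pow_ne_zero _ (hx j))]
    ring
  have h8 : PM (C (a 0 * a n) * f.discr)
      (C (c ^ n * ∏ j, x j ^ k) * ∏ j, (X - C (-((fP a n k 0).eval (x j) / x j ^ k)))) := by
    have e1 : PM (C (a 0 * a n) * f.discr) (f.resultant (X * derivative f) n n) := by
      rw [h2, h3, h1]
      have e2 : (-1) ^ n * C (a 0) * ((-1) ^ (n * (n - 1) / 2) * C (a n) * f.discr)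
          = (-1) ^ (n + n * (n - 1) / 2) * (C (a 0 * a n) * f.discr) := by
        rw [pow_add, C_mul]; ring
      rw [e2]
      exact (PM.neg_one_pow_mul _ _).symm
    refine e1.trans ?_
    rw [← h4, h5, resultant_comm]
    refine (PM.neg_one_pow_mul _ _).trans ?_
    rw [h6]
    left
    rw [C_mul, C_pow, mul_assoc]
    congr 1
    rw [map_prod, ← Finset.prod_mul_distrib]
    exact Finset.prod_congr rfl (fun j _ => h7 j)
  have hne : a 0 * a n ≠ 0 := mul_ne_zero ha0 han
  rcases h8 with h8 | h8
  · refine ⟨(c ^ n * ∏ j, x j ^ k) / (a 0 * a n), ?_, ?_⟩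
    · left
      rw [div_mul_cancel₀ _ hne]
    · have hne' : (C (a 0 * a n) : K[X]) ≠ 0 := by simpa using hne
      apply mul_left_cancel₀ hne'
      rw [h8, ← mul_assoc, ← C_mul, mul_div_cancel₀ _ hne]
  · refine ⟨-((c ^ n * ∏ j, x j ^ k) / (a 0 * a n)), ?_, ?_⟩
    · right
      rw [neg_mul, div_mul_cancel₀ _ hne]
    · have hne' : (C (a 0 * a n) : K[X]) ≠ 0 := by simpa using hne
      apply mul_left_cancel₀ hne'
      rw [h8, ← mul_assoc, ← C_mul, mul_neg, mul_div_cancel₀ _ hne, C_neg, neg_mul]

/-- The discriminant in `x` of the polynomial with constant coefficient `Y`. -/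
theorem discr_fP_zero {K : Type*} [Field K] [CharZero K] {ι : Type*} [Fintype ι] [DecidableEq ι]
    (a : ℕ → K) {n : ℕ} (hn : 0 < n) (han : a n ≠ 0)
    (x : ι → K) (hι : Fintype.card ι = n - 1) (c : K)
    (hR : RP a n 0 = X * (C c * ∏ j, (X - C (x j)))) :
    ∃ b : K, PM (b * a n) (c ^ n) ∧
      (fP (fun i => C (a i)) n 0 (X : K[X])).discr
        = C b * ∏ j, (X - C (-((fP a n 0 0).eval (x j)))) := by
  set f : K[X][X] := fP (fun i => C (a i)) n 0 (X : K[X]) with hf
  have hfn : f.natDegree = n := natDegree_fP _ _ hn (by simpa using han)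
  have hflc : f.leadingCoeff = C (a n) := by
    rw [leadingCoeff, hfn, hf, coeff_fP, if_pos le_rfl, if_neg hn.ne']
  have hpos : 0 < f.degree := by
    rw [← natDegree_pos_iff_degree_pos, hfn]
    omega
  have h1 := resultant_deriv hpos
  rw [hfn, hflc] at h1
  have h5 : derivative f = (C c * ∏ j, (X - C (x j)) : K[X]).map C := by
    have e1 : X * derivative f = (RP a n 0).map C := by
      rw [RP_map, RP_eq (fun i => C (a i)) n 0 X]
      simp [hf]
    rw [hR, Polynomial.map_mul, map_X] at e1
    exact mul_left_cancel₀ X_ne_zero e1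
  have h6 : (derivative f).resultant f (n - 1) n = C c ^ n * ∏ j, f.eval (C (x j)) := by
    rw [h5]
    have : (C c * ∏ j, (X - C (x j)) : K[X]).map (C : K →+* K[X])
        = C (C c) * ∏ j, (X - C (C (x j))) := by
      simp [Polynomial.map_mul, Polynomial.map_prod]
    rw [this]
    nth_rewrite 1 [← hι]
    exact resultant_prod_eq (fun j => (C (x j) : K[X])) (C c) f n hfn.le
  have h7 : ∀ j, f.eval (C (x j)) = (X - C (-((fP a n 0 0).eval (x j)))) := by
    intro j
    have e1 : f = (fP a n 0 0).map C + C X * X ^ 0 := by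
      rw [hf, fP_eq_add _ (Nat.zero_le n), fP_map]
      simp
    rw [e1, eval_add, eval_mul, eval_C, eval_pow, eval_map, eval₂_hom]
    simp [add_comm]
  have h8 : PM (C (a n) * f.discr)
      (C (c ^ n) * ∏ j, (X - C (-((fP a n 0 0).eval (x j))))) := by
    have e1 : PM (C (a n) * f.discr) (f.resultant (derivative f) n (n - 1)) := by
      rw [h1, mul_assoc]
      exact (PM.neg_one_pow_mul _ _).symm
    refine e1.trans ?_
    rw [resultant_comm]
    refine (PM.neg_one_pow_mul _ _).trans ?_
    rw [h6]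
    left
    rw [C_pow]
    congr 1
    exact Finset.prod_congr rfl (fun j _ => h7 j)
  have hne' : (C (a n) : K[X]) ≠ 0 := by simpa using han
  rcases h8 with h8 | h8
  · refine ⟨c ^ n / a n, ?_, ?_⟩
    · left
      rw [div_mul_cancel₀ _ han]
    · apply mul_left_cancel₀ hne'
      rw [h8, ← mul_assoc, ← C_mul, mul_div_cancel₀ _ han]
  · refine ⟨-(c ^ n / a n), ?_, ?_⟩
    · right
      rw [neg_mul, div_mul_cancel₀ _ han]
    · apply mul_left_cancel₀ hne'
      rw [h8, ← mul_assoc, ← C_mul, mul_neg, mul_div_cancel₀ _ han, C_neg, neg_mul]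

end Pool.Agent.T2H54.DD
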