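import Mathlib

/-!
# A valuation ring dominating the localisation at a prime
-/

namespace Pool.Agent.T2H54.DD

open IsLocalRing

/-- Every prime `P` of a domain `A` embedded in a field `K` is the trace of the maximal ideal of a
valuation subring of `K`. -/
theorem exists_dominating {A K : Type*} [CommRing A] [IsDomain A] [Field K]
    (φ : A →+* K) (hφ : Function.Injective φ) (P : Ideal A) [P.IsPrime] :
    ∃ V : ValuationSubring K, (∀ a, φ a ∈ V) ∧ (∀ a ∈ P, V.valuation (φ a) < 1) ∧
      (∀ a, a ∉ P → V.valuation (φ a) = 1) := by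
  classical
  have hu : ∀ y : P.primeCompl, IsUnit (φ y) := by
    intro y
    have hy : (y : A) ≠ 0 := by
      intro h0
      have := y.2
      rw [h0] at this
      exact this P.zero_mem
    exact isUnit_iff_ne_zero.mpr (fun h => hy ((map_eq_zero_iff φ hφ).mp h))
  let R := Localization.AtPrime P
  let f : R →+* K := IsLocalization.lift (M := P.primeCompl) (g := φ) hu
  have hfa : ∀ a, f (algebraMap A R a) = φ a := fun a => IsLocalization.lift_eq hu a
  have hfinj : Function.Injective f := by
    rw [IsLocalization.lift_injective_iff]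
    intro x y
    constructor
    · intro h
      have hinj : Function.Injective (algebraMap A R) :=
        IsLocalization.injective R (M := P.primeCompl) P.primeCompl_le_nonZeroDivisors
      rw [hinj h]
    · intro h
      rw [hφ h]
  let L : LocalSubring K := LocalSubring.range f
  obtain ⟨V, hLV⟩ := L.exists_le_valuationSubring
  obtain ⟨hle, hloc⟩ := LocalSubring.le_def.mp hLV
  have hmemL : ∀ r, f r ∈ L.toSubring := by
    intro r
    change f r ∈ f.range
    exact ⟨r, rfl⟩
  have hmem : ∀ r, f r ∈ V := fun r => hle (hmemL r)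
  have hunit : ∀ r, IsUnit r → V.valuation (f r) = 1 := by
    intro r hr
    have h1 : V.valuation (f r) ≤ 1 := (V.valuation_le_one_iff _).mpr (hmem r)
    obtain ⟨u, rfl⟩ := hr
    have h2 : V.valuation (f (↑u⁻¹ : R)) ≤ 1 := (V.valuation_le_one_iff _).mpr (hmem _)
    have h3 : V.valuation (f u) * V.valuation (f (↑u⁻¹ : R)) = 1 := by
      rw [← map_mul, ← map_mul]; simp
    refine le_antisymm h1 ?_
    calc (1 : V.ValueGroup) = V.valuation (f u) * V.valuation (f (↑u⁻¹ : R)) := h3.symm
      _ ≤ V.valuation (f u) * 1 := mul_le_mul_right h2 _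
      _ = V.valuation (f u) := mul_one _
  have hnon : ∀ r, ¬ IsUnit r → V.valuation (f r) < 1 := by
    intro r hr
    rcases V.valuation_lt_one_or_eq_one ⟨f r, hmem r⟩ with h | h
    · exact h
    · exfalso
      have h1 : IsUnit (⟨f r, hmem r⟩ : V) := (V.valuation_eq_one_iff _).mpr h
      have h2 : IsUnit (Subring.inclusion hle (⟨f r, hmemL r⟩ : L.toSubring)) := by
        exact h1
      have h3 : IsUnit (⟨f r, hmemL r⟩ : L.toSubring) := hloc.map_nonunit _ h2
      obtain ⟨b, hb⟩ := isUnit_iff_exists_inv.mp h3
      obtain ⟨s, hs⟩ : (b : K) ∈ f.range := b.2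
      apply hr
      apply isUnit_iff_exists_inv.mpr
      refine ⟨s, hfinj ?_⟩
      rw [map_mul, map_one, hs]
      exact congrArg Subtype.val hb
  refine ⟨V, fun a => hfa a ▸ hmem _, ?_, ?_⟩
  · intro a ha
    rw [← hfa a]
    apply hnon
    intro hu'
    exact (IsLocalization.AtPrime.isUnit_to_map_iff R P a).mp hu' ha
  · intro a ha
    rw [← hfa a]
    apply hunit
    exact (IsLocalization.AtPrime.isUnit_to_map_iff R P a).mpr ha

end Pool.Agent.T2H54.DD
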