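import Mathlib
import Pool.Agent.T2H54.DD.Setup

/-!
# Integer content of multivariate polynomials and valuations
-/

namespace Pool.Agent.T2H54.DD

open MvPolynomial

/-- The positive greatest common divisor of all integer coefficients. -/
noncomputable def intContent (P : MvPolynomial ℕ ℤ) : ℕ :=
  P.support.gcd fun m => (P.coeff m).natAbs

theorem exists_primitive_part (P : MvPolynomial ℕ ℤ) (hP : P ≠ 0) :
    intContent P ≠ 0 ∧ ∃ Q : MvPolynomial ℕ ℤ, P = C (intContent P : ℤ) * Q ∧
      ∀ p : ℕ, p.Prime → ¬ (∀ m, (p : ℤ) ∣ Q.coeff m) := by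
  classical
  have hc0 : intContent P ≠ 0 := by
    intro h0
    obtain ⟨m, hm⟩ := MvPolynomial.support_nonempty.mpr hP
    have h1 := (Finset.gcd_eq_zero_iff (f := fun m => (P.coeff m).natAbs)).mp h0 m hm
    rw [Int.natAbs_eq_zero] at h1
    exact (MvPolynomial.mem_support_iff.mp hm) h1
  refine ⟨hc0, ?_⟩
  have hdvd : ∀ m, (intContent P : ℤ) ∣ P.coeff m := by
    intro m
    by_cases hm : m ∈ P.support
    · have := Finset.gcd_dvd (f := fun m => (P.coeff m).natAbs) hm
      exact Int.natCast_dvd.mpr this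
    · rw [MvPolynomial.notMem_support_iff.mp hm]
      exact dvd_zero _
  obtain ⟨Q, hQ⟩ := (MvPolynomial.C_dvd_iff_dvd_coeff _ _).mpr hdvd
  refine ⟨Q, hQ, ?_⟩
  intro p hp hall
  have h1 : p * intContent P ∣ intContent P := by
    apply Finset.dvd_gcd
    intro m _
    have h2 : P.coeff m = (intContent P : ℤ) * Q.coeff m := by
      conv_lhs => rw [hQ]
      rw [MvPolynomial.coeff_C_mul]
    obtain ⟨t, ht⟩ := hall m
    apply Int.natCast_dvd.mp
    rw [h2, ht]
    push_cast
    exact ⟨t, by ring⟩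
  have h3 := Nat.le_of_dvd (Nat.pos_of_ne_zero hc0) h1
  have h4 := hp.two_le
  have h5 := Nat.pos_of_ne_zero hc0
  nlinarith

section val

variable {K : Type*} [Field K] (V : ValuationSubring K)

theorem val_int_le_one (m : ℤ) : V.valuation (m : K) ≤ 1 :=
  (V.valuation_le_one_iff _).mpr (intCast_mem V m)

theorem val_nat_le_one (m : ℕ) : V.valuation (m : K) ≤ 1 :=
  (V.valuation_le_one_iff _).mpr (natCast_mem V m)

theorem val_int_eq_one {p : ℕ} (hV : V.valuation (p : K) < 1) (hp : p.Prime)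
    {m : ℤ} (hm : ¬ (p : ℤ) ∣ m) : V.valuation (m : K) = 1 := by
  refine le_antisymm (val_int_le_one V m) ?_
  by_contra hlt
  rw [not_le] at hlt
  have hcop : IsCoprime (p : ℤ) m := by
    rw [(Nat.prime_iff_prime_int.mp hp).coprime_iff_not_dvd]
    exact hm
  obtain ⟨u, w, huw⟩ := hcop
  have h1 : V.valuation (((u * p + w * m : ℤ)) : K) < 1 := by
    push_cast
    refine lt_of_le_of_lt (Valuation.map_add _ _ _) (max_lt ?_ ?_)
    · rw [map_mul]
      exact lt_of_le_of_lt (mul_le_of_le_one_left' (val_int_le_one V u)) hV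
    · rw [map_mul]
      exact lt_of_le_of_lt (mul_le_of_le_one_left' (val_int_le_one V w)) hlt
  rw [huw] at h1
  simp at h1

theorem val_nat_eq_one {p : ℕ} (hV : V.valuation (p : K) < 1) (hp : p.Prime)
    {m : ℕ} (hm : ¬ p ∣ m) : V.valuation (m : K) = 1 := by
  have := val_int_eq_one V hV hp (m := (m : ℤ)) (by rwa [Int.natCast_dvd_natCast])
  simpa using this

theorem val_int_lt_one {p : ℕ} (hV : V.valuation (p : K) < 1)
    {m : ℤ} (hm : (p : ℤ) ∣ m) : V.valuation (m : K) < 1 := by
  obtain ⟨t, rfl⟩ := hm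
  push_cast
  rw [map_mul]
  exact lt_of_le_of_lt (mul_le_of_le_one_right' (val_int_le_one V t)) hV

theorem val_nat_lt_one {p : ℕ} (hV : V.valuation (p : K) < 1)
    {m : ℕ} (hm : p ∣ m) : V.valuation (m : K) < 1 := by
  have := val_int_lt_one V hV (m := (m : ℤ)) (by rwa [Int.natCast_dvd_natCast])
  simpa using this

theorem val_nat_eq_pow {p : ℕ} (hV : V.valuation (p : K) < 1) (hp : p.Prime)
    {m : ℕ} (hm : m ≠ 0) : V.valuation (m : K) = V.valuation (p : K) ^ (m.factorization p) := by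
  have h1 := Nat.ordProj_mul_ordCompl_eq_self m p
  conv_lhs => rw [← h1]
  push_cast
  rw [map_mul, map_pow, val_nat_eq_one V hV hp (Nat.not_dvd_ordCompl hp hm), mul_one]

theorem factorization_eq_of_val_eq {p : ℕ} (hV : V.valuation (p : K) < 1) (hp : p.Prime)
    [CharZero K] {m m' : ℕ} (hm : m ≠ 0) (hm' : m' ≠ 0)
    (h : V.valuation (m : K) = V.valuation (m' : K)) :
    m.factorization p = m'.factorization p := by
  rw [val_nat_eq_pow V hV hp hm, val_nat_eq_pow V hV hp hm'] at h
  have h0 : 0 < V.valuation (p : K) := by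
    rw [zero_lt_iff]
    simp [hp.ne_zero]
  exact (pow_right_strictAnti₀ h0 hV).injective h

end val

/-- `V` is a valuation ring of `K` whose trace on `ℤ[a_0, a_1, …]` is the localisation at `p`. -/
structure Dom (p : ℕ) (K : Type*) [Field K] (φ : MvPolynomial ℕ ℤ →+* K)
    (V : ValuationSubring K) : Prop where
  inj : Function.Injective φ
  lt : ∀ a : MvPolynomial ℕ ℤ, (∀ m, (p : ℤ) ∣ a.coeff m) → V.valuation (φ a) < 1
  eq : ∀ a : MvPolynomial ℕ ℤ, ¬ (∀ m, (p : ℤ) ∣ a.coeff m) → V.valuation (φ a) = 1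

theorem exists_dom {K : Type*} [Field K] (φ : MvPolynomial ℕ ℤ →+* K)
    (hφ : Function.Injective φ) {p : ℕ} (hp : p.Prime) :
    ∃ V : ValuationSubring K, Dom p K φ V := by
  have hprime : (Ideal.span {(C (p : ℤ) : MvPolynomial ℕ ℤ)}).IsPrime := by
    rw [Ideal.span_singleton_prime]
    · exact (MvPolynomial.prime_C_iff ℕ).mpr (Nat.prime_iff_prime_int.mp hp)
    · simp [hp.ne_zero]
  obtain ⟨V, -, h2, h3⟩ := exists_dominating φ hφ (Ideal.span {(C (p : ℤ) : MvPolynomial ℕ ℤ)})
  refine ⟨V, hφ, ?_, ?_⟩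
  · intro a ha
    apply h2
    rw [Ideal.mem_span_singleton]
    exact (MvPolynomial.C_dvd_iff_dvd_coeff _ _).mpr ha
  · intro a ha
    apply h3
    rw [Ideal.mem_span_singleton]
    intro h
    exact ha ((MvPolynomial.C_dvd_iff_dvd_coeff _ _).mp h)

theorem Dom.mem {p : ℕ} {K : Type*} [Field K] {φ : MvPolynomial ℕ ℤ →+* K}
    {V : ValuationSubring K} (h : Dom p K φ V) (a : MvPolynomial ℕ ℤ) : φ a ∈ V := by
  rw [← V.valuation_le_one_iff]
  by_cases ha : ∀ m, (p : ℤ) ∣ a.coeff m
  · exact (h.lt a ha).le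
  · exact (h.eq a ha).le

theorem Dom.val_p {p : ℕ} {K : Type*} [Field K] {φ : MvPolynomial ℕ ℤ →+* K}
    {V : ValuationSubring K} (h : Dom p K φ V) : V.valuation (p : K) < 1 := by
  have := h.lt (C (p : ℤ)) (by
    intro m
    rw [MvPolynomial.coeff_C]
    split_ifs
    · exact dvd_rfl
    · exact dvd_zero _)
  simpa using this

theorem charZero_of_injective {K : Type*} [Field K] (φ : MvPolynomial ℕ ℤ →+* K)
    (hφ : Function.Injective φ) : CharZero K := by
  refine ⟨fun a b hab => ?_⟩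
  have : φ (a : MvPolynomial ℕ ℤ) = φ (b : MvPolynomial ℕ ℤ) := by simpa using hab
  exact Nat.cast_injective (hφ this)

/-- The content can be read off from the valuations. -/
theorem intContent_eq {K : Type*} [Field K] (φ : MvPolynomial ℕ ℤ →+* K)
    (hφ : Function.Injective φ) (P : MvPolynomial ℕ ℤ) (N : ℕ) (hN : N ≠ 0)
    (h : ∀ p : ℕ, p.Prime → ∀ V : ValuationSubring K, Dom p K φ V →
      V.valuation (φ P) = V.valuation (N : K)) : intContent P = N := by
  have hchar := charZero_of_injective φ hφ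
  have hP : P ≠ 0 := by
    rintro rfl
    obtain ⟨V, hV⟩ := exists_dom φ hφ Nat.prime_two
    have := h 2 Nat.prime_two V hV
    rw [map_zero, map_zero, eq_comm, Valuation.zero_iff, Nat.cast_eq_zero] at this
    exact hN this
  obtain ⟨hc0, Q, hQ, hQp⟩ := exists_primitive_part P hP
  refine Nat.eq_of_factorization_eq hc0 hN ?_
  intro p
  by_cases hp : p.Prime
  · obtain ⟨V, hV⟩ := exists_dom φ hφ hp
    have h1 := h p hp V hV
    have h2 : V.valuation (φ P) = V.valuation ((intContent P : ℕ) : K) := by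
      conv_lhs => rw [hQ]
      rw [map_mul, map_mul, hV.eq Q (hQp p hp), mul_one]
      simp
    exact factorization_eq_of_val_eq V hV.val_p hp hc0 hN (h2.symm.trans h1)
  · rw [Nat.factorization_eq_zero_of_not_prime _ hp, Nat.factorization_eq_zero_of_not_prime _ hp]

end Pool.Agent.T2H54.DD
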