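import Mathlib

/-!
# Polynomials whose coefficients are algebraically independent modulo `p`
-/

namespace Pool.Agent.T2H54.DD

open Polynomial

/-- The integer polynomial relations between the `b i` are the trivial ones modulo `p`. -/
def Gen (p : ℕ) {κ : Type*} [Field κ] (b : ℕ → κ) : Prop :=
  ∀ P : MvPolynomial ℕ ℤ, MvPolynomial.eval₂ (Int.castRingHom κ) b P = 0 →
    ∀ m, (p : ℤ) ∣ P.coeff m

theorem card_le_of_gen {p : ℕ} (hp : p.Prime) {κ : Type*} [Field κ] [CharP κ p] {b : ℕ → κ}
    (hb : Gen p b) (I : Finset ℕ) (s : Finset κ)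
    (h : ∀ i ∈ I, b i ∈ Subring.closure (s : Set κ)) : I.card ≤ s.card := by
  classical
  have : Fact p.Prime := ⟨hp⟩
  let _ : Algebra (ZMod p) κ := ZMod.algebra κ p
  have hAI : AlgebraicIndependent (ZMod p) b := by
    rw [algebraicIndependent_iff]
    intro P hP
    obtain ⟨Q, rfl⟩ := MvPolynomial.map_surjective (Int.castRingHom (ZMod p))
      (ZMod.ringHom_surjective _) P
    have h1 : MvPolynomial.eval₂ (Int.castRingHom κ) b Q = 0 := by
      rw [← hP]
      simp only [MvPolynomial.aeval_def, MvPolynomial.eval₂_map]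
      congr 1
      exact RingHom.ext_int _ _
    have h2 := hb Q h1
    ext m
    rw [MvPolynomial.coeff_map, MvPolynomial.coeff_zero, eq_intCast, ZMod.intCast_zmod_eq_zero_iff_dvd]
    exact h2 m
  have hmem : ∀ i : I, ∃ P : MvPolynomial s (ZMod p),
      MvPolynomial.aeval (fun x : s => (x : κ)) P = b i := by
    intro i
    have h1 := h i i.2
    have h2 : Subring.closure (s : Set κ) ≤
        (MvPolynomial.aeval (R := ZMod p) (fun x : s => (x : κ))).toRingHom.range := by
      rw [Subring.closure_le]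
      intro x hx
      exact ⟨MvPolynomial.X ⟨x, hx⟩, by simp⟩
    obtain ⟨P, hP⟩ := h2 h1
    exact ⟨P, hP⟩
  choose P hP using hmem
  have hAI2 : AlgebraicIndependent (ZMod p) P := by
    apply AlgebraicIndependent.of_comp
      (MvPolynomial.aeval (R := ZMod p) (fun x : s => (x : κ)))
    have : (⇑(MvPolynomial.aeval (R := ZMod p) (fun x : s => (x : κ))) ∘ P)
        = b ∘ (fun i : I => (i : ℕ)) := by
      funext i
      exact hP i
    rw [this]
    exact hAI.comp _ Subtype.val_injective
  have h3 := hAI2.lift_cardinalMk_le_trdeg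
  rw [MvPolynomial.trdeg_of_isDomain] at h3
  simpa using h3

theorem Gen.ne_zero {p : ℕ} (hp : p.Prime) {κ : Type*} [Field κ] {b : ℕ → κ}
    (hb : Gen p b) (i : ℕ) : b i ≠ 0 := by
  intro h0
  have h1 := hb (MvPolynomial.X i) (by simpa using h0) (Finsupp.single i 1)
  rw [MvPolynomial.coeff_X, if_pos rfl] at h1
  have h2 : p ∣ 1 := by
    rw [← Int.natCast_dvd_natCast]
    exact_mod_cast h1
  exact hp.one_lt.ne' (Nat.dvd_one.mp h2)

theorem natDegree_le_of_gen {p : ℕ} (hp : p.Prime) {κ : Type*} [Field κ] [CharP κ p] {b : ℕ → κ}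
    (hb : Gen p b) {n k : ℕ} (hk : k < n) {F q : κ[X]} (hF : F.natDegree ≤ n)
    (hFb : ∀ i, i ≤ n → i ≠ k → F.coeff i = b i) (hq : q.Monic) (t : Finset κ)
    (hqt : ∀ i, q.coeff i ∈ Subring.closure (t : Set κ)) (hdvd : q ∣ F) :
    q.natDegree ≤ t.card + 1 := by
  classical
  obtain ⟨g, rfl⟩ := hdvd
  have hn : (q * g).coeff n ≠ 0 := by
    rw [hFb n le_rfl hk.ne']
    exact hb.ne_zero hp n
  have hFd : (q * g).natDegree = n := le_antisymm hF (le_natDegree_of_ne_zero hn)
  have hg0 : g ≠ 0 := by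
    rintro rfl
    simp at hn
  have hgd : q.natDegree + g.natDegree = n := by
    rw [← hFd, hq.natDegree_mul' hg0]
  have hcard := card_le_of_gen hp hb ((Finset.range (n + 1)).erase k)
    (t ∪ (Finset.range (g.natDegree + 1)).image g.coeff) (by
      intro i hi
      rw [Finset.mem_erase, Finset.mem_range] at hi
      rw [← hFb i (by omega) hi.1, coeff_mul]
      refine Subring.sum_mem _ (fun c _ => Subring.mul_mem _ ?_ ?_)
      · exact Subring.closure_mono (by simp) (hqt _)
      · by_cases hc : c.2 ≤ g.natDegree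
        · apply Subring.subset_closure
          simp only [Finset.coe_union, Finset.coe_image, Set.mem_union]
          right
          exact ⟨c.2, by simp; omega, rfl⟩
        · rw [coeff_eq_zero_of_natDegree_lt (by omega)]
          exact Subring.zero_mem _)
  have h1 : ((Finset.range (n + 1)).erase k).card = n := by
    rw [Finset.card_erase_of_mem (by simp; omega), Finset.card_range]
    rfl
  have h2 : (t ∪ (Finset.range (g.natDegree + 1)).image g.coeff).card
      ≤ t.card + (g.natDegree + 1) := by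
    refine (Finset.card_union_le _ _).trans ?_
    gcongr
    exact Finset.card_image_le.trans (by simp)
  omega

theorem mem_closure_X_sub_C_pow {κ : Type*} [CommRing κ] (S : Subring κ) {σ : κ} (hσ : σ ∈ S)
    (e : ℕ) : ∀ i, ((X - C σ) ^ e : κ[X]).coeff i ∈ S := by
  induction e with
  | zero =>
    intro i
    rw [pow_zero, coeff_one]
    split_ifs
    · exact S.one_mem
    · exact S.zero_mem
  | succ e ih =>
    intro i
    rw [pow_succ, coeff_mul]
    refine Subring.sum_mem _ (fun c _ => Subring.mul_mem _ (ih _) ?_)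
    rw [coeff_sub, coeff_X, coeff_C]
    refine Subring.sub_mem _ ?_ ?_
    · split_ifs
      · exact S.one_mem
      · exact S.zero_mem
    · split_ifs
      · exact hσ
      · exact S.zero_mem

theorem not_cube_dvd {p : ℕ} (hp : p.Prime) {κ : Type*} [Field κ] [CharP κ p] {b : ℕ → κ}
    (hb : Gen p b) {n k : ℕ} (hk : k < n) {F : κ[X]} (hF : F.natDegree ≤ n)
    (hFb : ∀ i, i ≤ n → i ≠ k → F.coeff i = b i) (σ : κ) : ¬ (X - C σ) ^ 3 ∣ F := by
  intro h
  have h1 := natDegree_le_of_gen hp hb hk hF hFb ((monic_X_sub_C σ).pow 3) {σ}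
    (mem_closure_X_sub_C_pow _ (Subring.subset_closure (by simp)) 3) h
  rw [natDegree_pow, natDegree_X_sub_C] at h1
  simp at h1

theorem not_sq_mul_sq_dvd {p : ℕ} (hp : p.Prime) {κ : Type*} [Field κ] [CharP κ p] {b : ℕ → κ}
    (hb : Gen p b) {n k : ℕ} (hk : k < n) {F : κ[X]} (hF : F.natDegree ≤ n)
    (hFb : ∀ i, i ≤ n → i ≠ k → F.coeff i = b i) (σ τ : κ) :
    ¬ (X - C σ) ^ 2 * (X - C τ) ^ 2 ∣ F := by
  classical
  intro h
  have h1 := natDegree_le_of_gen hp hb hk hF hFb
    (((monic_X_sub_C σ).pow 2).mul ((monic_X_sub_C τ).pow 2)) {σ, τ}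
    (by
      intro i
      rw [coeff_mul]
      refine Subring.sum_mem _ (fun c _ => Subring.mul_mem _ ?_ ?_)
      · exact mem_closure_X_sub_C_pow _ (Subring.subset_closure (by simp)) 2 _
      · exact mem_closure_X_sub_C_pow _ (Subring.subset_closure (by simp)) 2 _) h
  rw [((monic_X_sub_C σ).pow 2).natDegree_mul ((monic_X_sub_C τ).pow 2), natDegree_pow,
    natDegree_pow, natDegree_X_sub_C, natDegree_X_sub_C] at h1
  have h2 : ({σ, τ} : Finset κ).card ≤ 2 := Finset.card_le_two
  omega

end Pool.Agent.T2H54.DD
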