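import Mathlib

/-!
# Valuations of values and roots of integral polynomials
-/

namespace Pool.Agent.T2H54.DD

open Polynomial

section

variable {K Γ : Type*} [Field K] [LinearOrderedCommGroupWithZero Γ] (v : Valuation K Γ)

/-- All coefficients are integral. -/
def Intg (P : K[X]) : Prop := ∀ i, v (P.coeff i) ≤ 1

theorem val_eval_le {P : K[X]} (hP : Intg v P) {x : K} (hx : v x ≤ 1) : v (P.eval x) ≤ 1 := by
  rw [eval_eq_sum_range]
  refine v.map_sum_le (fun i _ => ?_)
  rw [map_mul, map_pow]
  exact mul_le_one' (hP i) (pow_le_one' hx i)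

theorem Intg.divX {P : K[X]} (hP : Intg v P) : Intg v P.divX := by
  intro i
  rw [coeff_divX]
  exact hP _

theorem val_eval_sub_lt {P : K[X]} (hP : Intg v P) {x : K} (hx : v x < 1) :
    v (P.eval x - P.coeff 0) < 1 := by
  have h : P.eval x - P.coeff 0 = P.divX.eval x * x := by
    nth_rewrite 1 [← divX_mul_X_add P]
    rw [eval_add, eval_mul, eval_X, eval_C]
    ring
  rw [h, map_mul]
  exact lt_of_le_of_lt (mul_le_of_le_one_left' (val_eval_le v (Intg.divX v hP) hx.le)) hx

theorem val_eval_eq_one {P : K[X]} (hP : Intg v P) {x : K} (hx : v x < 1)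
    (h0 : v (P.coeff 0) = 1) : v (P.eval x) = 1 := by
  have h1 := val_eval_sub_lt v hP hx
  have h2 : P.eval x = (P.eval x - P.coeff 0) + P.coeff 0 := by ring
  rw [h2, v.map_add_eq_of_lt_right (by rw [h0]; exact h1), h0]

theorem Intg.reflect {P : K[X]} (hP : Intg v P) (N : ℕ) : Intg v (P.reflect N) := by
  intro i
  rw [coeff_reflect]
  exact hP _

theorem eval_reflect_inv {P : K[X]} {N : ℕ} (hN : P.natDegree ≤ N) {x : K} (hx : x ≠ 0) :
    (P.reflect N).eval x⁻¹ * x ^ N = P.eval x := by
  let _ : Invertible x := invertibleOfNonzero hx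
  have := eval₂_reflect_mul_pow (RingHom.id K) x N P hN
  rw [invOf_eq_inv] at this
  exact this

theorem val_eval_of_one_lt {P : K[X]} (hP : Intg v P) {N : ℕ} (hN : P.natDegree ≤ N) {x : K}
    (hx : 1 < v x) (h0 : v (P.coeff N) = 1) : v (P.eval x) = v x ^ N := by
  have hx0 : x ≠ 0 := by
    rintro rfl
    simp at hx
  rw [← eval_reflect_inv hN hx0, map_mul, map_pow]
  rw [val_eval_eq_one v (Intg.reflect v hP N), one_mul]
  · rw [map_inv₀]
    exact inv_lt_one_of_one_lt₀ hx
  · rw [coeff_reflect, revAt_le (Nat.zero_le _), Nat.sub_zero, h0]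

/-- Synthetic division by an integral root keeps coefficients integral. -/
theorem Intg.of_mul {Q : K[X]} {x : K} (hx : v x ≤ 1) (h : Intg v ((X - C x) * Q)) : Intg v Q := by
  have hrec : ∀ m, Q.coeff m = ((X - C x) * Q).coeff (m + 1) + x * Q.coeff (m + 1) := by
    intro m
    rw [sub_mul, coeff_sub, coeff_X_mul, coeff_C_mul]
    ring
  have key : ∀ d m, Q.natDegree < m + d → v (Q.coeff m) ≤ 1 := by
    intro d
    induction d with
    | zero =>
      intro m hm
      rw [coeff_eq_zero_of_natDegree_lt (by omega), map_zero]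
      exact zero_le_one
    | succ d ih =>
      intro m hm
      rw [hrec m]
      refine v.map_add_le (h _) ?_
      rw [map_mul]
      exact mul_le_one' hx (ih (m + 1) (by omega))
  intro i
  exact key (Q.natDegree + 1) i (by omega)

theorem Intg.of_sq_mul {Q : K[X]} {x : K} (hx : v x ≤ 1) (h : Intg v ((X - C x) ^ 2 * Q)) :
    Intg v Q := by
  rw [pow_two, mul_assoc] at h
  exact Intg.of_mul v hx (Intg.of_mul v hx h)

section roots

variable {ι : Type*} [Fintype ι] [DecidableEq ι] (x : ι → K) (c : K)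

theorem no_small_root {P : K[X]} (hP : Intg v P) (hPx : P = C c * ∏ j, (X - C (x j)))
    (h0 : v (P.coeff 0) = 1) (j : ι) : ¬ v (x j) < 1 := by
  intro hj
  have h1 := val_eval_eq_one v hP hj h0
  have h2 : P.eval (x j) = 0 := by
    rw [hPx, eval_mul, eval_prod, Finset.prod_eq_zero (Finset.mem_univ j) (by simp), mul_zero]
  rw [h2, map_zero] at h1
  exact zero_ne_one h1

theorem small_root_unique {P : K[X]} (hP : Intg v P) (hPx : P = C c * ∏ j, (X - C (x j)))
    (h1 : v (P.coeff 1) = 1) {i j : ι} (hi : v (x i) < 1) (hj : v (x j) < 1) : i = j := by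
  by_contra hne
  have hfac : P = (X - C (x i)) * ((X - C (x j)) *
      (C c * ∏ l ∈ (Finset.univ.erase i).erase j, (X - C (x l)))) := by
    rw [hPx, ← Finset.mul_prod_erase Finset.univ _ (Finset.mem_univ i),
      ← Finset.mul_prod_erase (Finset.univ.erase i) _
        (Finset.mem_erase.mpr ⟨fun h => hne h.symm, Finset.mem_univ j⟩)]
    ring
  set Q := C c * ∏ l ∈ (Finset.univ.erase i).erase j, (X - C (x l)) with hQ
  have hQi : Intg v Q := by
    apply Intg.of_mul v hj.le
    apply Intg.of_mul v hi.le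
    rw [← hfac]
    exact hP
  have hc1 : P.coeff 1 = x i * (x j * Q.coeff 1) - x i * Q.coeff 0 - x j * Q.coeff 0 := by
    have e : (X - C (x i)) * ((X - C (x j)) * Q) = X * (X * Q) - C (x i) * (X * Q)
        - C (x j) * (X * Q) + C (x i) * (C (x j) * Q) := by ring
    rw [hfac, e]
    simp only [coeff_add, coeff_sub, coeff_C_mul]
    rw [show (1 : ℕ) = 0 + 1 from rfl, coeff_X_mul, coeff_X_mul]
    simp
    ring
  have : v (P.coeff 1) < 1 := by
    rw [hc1]
    refine v.map_sub_lt (v.map_sub_lt ?_ ?_) ?_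
    · rw [map_mul, map_mul]
      exact lt_of_le_of_lt (mul_le_of_le_one_right' (mul_le_one' hj.le (hQi 1))) hi
    · rw [map_mul]
      exact lt_of_le_of_lt (mul_le_of_le_one_right' (hQi 0)) hi
    · rw [map_mul]
      exact lt_of_le_of_lt (mul_le_of_le_one_right' (hQi 0)) hj
  rw [h1] at this
  exact lt_irrefl _ this

theorem exists_small_root {P : K[X]} (hPx : P = C c * ∏ j, (X - C (x j)))
    (h0 : v (P.coeff 0) < 1) (h1 : v (P.coeff 1) = 1) : ∃ j, v (x j) < 1 := by
  by_contra hall
  push_neg at hall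
  have hc1 : P.coeff 1 = (derivative P).eval 0 := by
    rw [← coeff_zero_eq_eval_zero, coeff_derivative]
    simp
  have hP0 : P.coeff 0 = c * ∏ j, (- x j) := by
    rw [coeff_zero_eq_eval_zero, hPx, eval_mul, eval_prod]
    simp
  have hlt : v (P.coeff 1) < 1 := by
    rw [hc1, hPx, derivative_C_mul, derivative_prod_finset, eval_C_mul, eval_finsetSum,
      Finset.mul_sum]
    refine v.map_sum_lt one_ne_zero (fun i _ => ?_)
    rw [eval_mul, eval_prod]
    have h2 : v (c * ((∏ j ∈ Finset.univ.erase i, eval 0 (X - C (x j)))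
        * eval 0 (derivative (X - C (x i))))) * v (x i) = v (P.coeff 0) := by
      rw [hP0, ← map_mul, ← Finset.mul_prod_erase Finset.univ _ (Finset.mem_univ i)]
      rw [← Valuation.map_neg]
      congr 1
      simp
      ring
    by_contra hge
    rw [not_lt] at hge
    have h3 : (1 : Γ) ≤ v (P.coeff 0) := by
      rw [← h2]
      exact one_le_mul hge (hall i)
    exact absurd h0 (not_lt.mpr h3)
  rw [h1] at hlt
  exact lt_irrefl _ hlt

end roots

end

end Pool.Agent.T2H54.DD
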