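import Mathlib
import Pool.Agent.T2H54.DD.Content
import Pool.Agent.T2H54.DD.Generic
import Pool.Agent.T2H54.DD.Poly
import Pool.Agent.T2H54.DD.Val

/-!
# Regular roots
-/

namespace Pool.Agent.T2H54.DD

open Polynomial IsLocalRing

variable {p : ℕ} {K : Type*} [Field K] {φ : MvPolynomial ℕ ℤ →+* K} {V : ValuationSubring K}

/-- The images of the indeterminates. -/
noncomputable def aK (φ : MvPolynomial ℕ ℤ →+* K) (i : ℕ) : K := φ (MvPolynomial.X i)

theorem Dom.val_a (hp : p.Prime) (hD : Dom p K φ V) (i : ℕ) : V.valuation (aK φ i) = 1 := by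
  apply hD.eq
  intro h
  have h1 := h (Finsupp.single i 1)
  rw [MvPolynomial.coeff_X, if_pos rfl] at h1
  have h2 : p ∣ 1 := by
    rw [← Int.natCast_dvd_natCast]
    exact_mod_cast h1
  exact hp.one_lt.ne' (Nat.dvd_one.mp h2)

/-- The homomorphism to the valuation ring. -/
noncomputable def phiV (hD : Dom p K φ V) : MvPolynomial ℕ ℤ →+* V :=
  φ.codRestrict V.toSubring (fun a => hD.mem a)

/-- The residues of the indeterminates. -/
noncomputable def bK (hD : Dom p K φ V) (i : ℕ) : ResidueField V :=
  residue V (phiV hD (MvPolynomial.X i))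

theorem residue_eq_zero_iff' (y : V) : residue V y = 0 ↔ V.valuation (y : K) < 1 := by
  rw [IsLocalRing.residue_eq_zero_iff, V.valuation_lt_one_iff]

theorem charP_residue (hp : p.Prime) (hD : Dom p K φ V) : CharP (ResidueField V) p := by
  refine (CharP.charP_iff_prime_eq_zero hp).mpr ?_
  have h1 : residue V ((p : ℕ) : V) = 0 := by
    rw [residue_eq_zero_iff']
    have := hD.val_p
    simpa using this
  simpa using h1

theorem gen_bK (hD : Dom p K φ V) : Gen p (bK hD) := by
  intro P hP
  have h1 : MvPolynomial.eval₂ (Int.castRingHom (ResidueField V)) (bK hD) P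
      = residue V (phiV hD P) := by
    have : (MvPolynomial.eval₂Hom (Int.castRingHom (ResidueField V)) (bK hD))
        = (residue V).comp (phiV hD) := by
      apply MvPolynomial.ringHom_ext
      · intro r
        simp
      · intro i
        simp [bK]
    exact congrArg (fun g => g P) this
  rw [h1, residue_eq_zero_iff'] at hP
  by_contra hall
  have := hD.eq P hall
  have h2 : ((phiV hD P : V) : K) = φ P := rfl
  rw [h2, this] at hP
  exact lt_irrefl _ hP

theorem exists_lift {P : K[X]} (hP : Intg V.valuation P) :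
    ∃ Q : V[X], Q.map V.subtype = P := by
  have h : P ∈ Polynomial.lifts V.subtype := by
    rw [lifts_iff_coeff_lifts]
    intro i
    exact ⟨⟨P.coeff i, (V.valuation_le_one_iff _).mp (hP i)⟩, rfl⟩
  exact (mem_lifts P).mp h

theorem intg_fP (hp : p.Prime) (hD : Dom p K φ V) (n k : ℕ) {y : K} (hy : V.valuation y ≤ 1) :
    Intg V.valuation (fP (aK φ) n k y) := by
  intro i
  rw [coeff_fP]
  split_ifs
  · exact hy
  · exact (hD.val_a hp i).le
  · simp

theorem val_sub_le (i k : ℕ) : V.valuation ((i : K) - k) ≤ 1 := by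
  have := val_int_le_one V ((i : ℤ) - k)
  simpa using this

theorem intg_RP (hp : p.Prime) (hD : Dom p K φ V) (n k : ℕ) :
    Intg V.valuation (RP (aK φ) n k) := by
  intro i
  rw [coeff_RP]
  split_ifs
  · rw [map_mul, hD.val_a hp i, mul_one]
    exact val_sub_le i k
  · simp

/-- In a field: a polynomial vanishing with its derivative is divisible by the square. -/
theorem sq_dvd_of_eval {κ : Type*} [Field κ] {F : κ[X]} {σ : κ} (h0 : F.eval σ = 0)
    (h1 : (derivative F).eval σ = 0) : (X - C σ) ^ 2 ∣ F := by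
  obtain ⟨G, hG⟩ := dvd_iff_isRoot.mpr h0
  have h2 : (derivative F).eval σ = G.eval σ := by
    rw [hG, derivative_mul]
    simp
  rw [h1] at h2
  obtain ⟨H, hH⟩ := dvd_iff_isRoot.mpr h2.symm
  exact ⟨H, by rw [hG, hH]; ring⟩

theorem val_cofactor_eq_one (hp : p.Prime) (hD : Dom p K φ V) {n k : ℕ} (hk : k < n) {x y : K}
    (hx : V.valuation x = 1) (hy : V.valuation y ≤ 1) {h : K[X]}
    (hf : fP (aK φ) n k y = (X - C x) ^ 2 * h) {x' : K} (hx' : V.valuation x' = 1)
    (hR : (RP (aK φ) n k).eval x' = 0) : V.valuation (h.eval x') = 1 := by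
  have hint : Intg V.valuation h := by
    apply Intg.of_sq_mul V.valuation hx.le
    rw [← hf]
    exact intg_fP hp hD n k hy
  have hle : V.valuation (h.eval x') ≤ 1 := val_eval_le V.valuation hint hx'.le
  refine le_antisymm hle (not_lt.mp fun hlt => ?_)
  -- lift to the valuation ring
  obtain ⟨hV, hhV⟩ := exists_lift hint
  have hinj : Function.Injective (Polynomial.map V.subtype) :=
    Polynomial.map_injective _ (V.subtype_injective)
  let xV : V := ⟨x, (V.valuation_le_one_iff _).mp hx.le⟩
  let yV : V := ⟨y, (V.valuation_le_one_iff _).mp hy⟩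
  let x'V : V := ⟨x', (V.valuation_le_one_iff _).mp hx'.le⟩
  have hfV : fP (fun i => phiV hD (MvPolynomial.X i)) n k yV = (X - C xV) ^ 2 * hV := by
    apply hinj
    rw [fP_map, Polynomial.map_mul, Polynomial.map_pow, Polynomial.map_sub, map_X, map_C, hhV]
    exact hf
  have hRV : (RP (fun i => phiV hD (MvPolynomial.X i)) n k).eval x'V = 0 := by
    apply V.subtype_injective
    rw [map_zero, ← eval_map_apply, RP_map]
    exact hR
  set σ : ResidueField V := residue V xV with hσ
  set τ : ResidueField V := residue V x'V with hτ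
  have hτ0 : τ ≠ 0 := by
    intro h0
    rw [hτ, residue_eq_zero_iff'] at h0
    exact absurd h0 (by rw [show ((x'V : V) : K) = x' from rfl, hx']; exact lt_irrefl _)
  set F : (ResidueField V)[X] := fP (bK hD) n k (residue V yV) with hF
  have hFeq : F = (X - C σ) ^ 2 * hV.map (residue V) := by
    have := congrArg (Polynomial.map (residue V)) hfV
    rw [fP_map, Polynomial.map_mul, Polynomial.map_pow, Polynomial.map_sub, map_X, map_C] at this
    exact this
  have hRF : (RP (bK hD) n k).eval τ = 0 := by
    have := congrArg (residue V) hRV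
    rw [map_zero, ← eval_map_apply, RP_map] at this
    exact this
  have hh0 : (hV.map (residue V)).eval τ = 0 := by
    rw [hτ, eval_map_apply, residue_eq_zero_iff']
    have : ((hV.eval x'V : V) : K) = h.eval x' := by
      rw [← hhV]
      exact (eval_map_apply V.subtype x'V).symm
    rw [this]
    exact hlt
  have hFτ : F.eval τ = 0 := by
    rw [hFeq, eval_mul, hh0, mul_zero]
  have hF'τ : (derivative F).eval τ = 0 := by
    have h1 := RP_eq (bK hD) n k (residue V yV)
    rw [← hF] at h1
    rw [h1, eval_sub, eval_mul, eval_mul, hFτ, mul_zero, sub_zero, eval_X] at hRF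
    exact (mul_eq_zero.mp hRF).resolve_left hτ0
  have hchar := charP_residue hp hD
  have hFdeg : F.natDegree ≤ n := natDegree_fP_le _ _ _ _
  have hFb : ∀ i, i ≤ n → i ≠ k → F.coeff i = bK hD i := by
    intro i hi hik
    rw [hF, coeff_fP, if_pos hi, if_neg hik]
  by_cases hστ : τ = σ
  · refine not_cube_dvd hp (gen_bK hD) hk hFdeg hFb σ ?_
    rw [hστ] at hh0
    obtain ⟨g, hg⟩ := dvd_iff_isRoot.mpr hh0
    exact ⟨g, by rw [hFeq, hg]; ring⟩
  · refine not_sq_mul_sq_dvd hp (gen_bK hD) hk hFdeg hFb σ τ ?_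
    refine IsCoprime.mul_dvd ?_ ?_ (sq_dvd_of_eval hFτ hF'τ)
    · apply IsCoprime.pow
      exact isCoprime_X_sub_C_of_isUnit_sub (isUnit_iff_ne_zero.mpr (sub_ne_zero.mpr (Ne.symm hστ)))
    · rw [hFeq]
      exact dvd_mul_right _ _

end Pool.Agent.T2H54.DD
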