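import Mathlib
import Pool.Agent.T2H54.DD.Content
import Pool.Agent.T2H54.DD.Poly
import Pool.Agent.T2H54.DD.Val

/-!
# Special roots, and the reversed polynomial
-/

namespace Pool.Agent.T2H54.DD

open Polynomial

section close

variable {K Γ : Type*} [Field K] [LinearOrderedCommGroupWithZero Γ] (v : Valuation K Γ)

theorem close_mul {u u' w w' : K} (hu : v u ≤ 1) (hw' : v w' ≤ 1) (h1 : v (u - u') < 1)
    (h2 : v (w - w') < 1) : v (u * w - u' * w') < 1 := by
  have e : u * w - u' * w' = u * (w - w') + (u - u') * w' := by ring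
  rw [e]
  refine v.map_add_lt ?_ ?_
  · rw [map_mul]
    exact lt_of_le_of_lt (mul_le_of_le_one_left' hu) h2
  · rw [map_mul]
    exact lt_of_le_of_lt (mul_le_of_le_one_right' hw') h1

theorem close_pow {u u' : K} (hu : v u ≤ 1) (hu' : v u' ≤ 1) (h1 : v (u - u') < 1) (e : ℕ) :
    v (u ^ e - u' ^ e) < 1 := by
  induction e with
  | zero => simp
  | succ e ih =>
    rw [pow_succ, pow_succ]
    refine close_mul v ?_ hu' ih h1
    rw [map_pow]
    exact pow_le_one' hu e

end close

section special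

variable {p : ℕ} {K : Type*} [Field K] (V : ValuationSubring K)

theorem intg_RP' {a : ℕ → K} (ha : ∀ i, V.valuation (a i) = 1) (n k : ℕ) :
    Intg V.valuation (RP a n k) := by
  intro i
  rw [coeff_RP]
  split_ifs
  · rw [map_mul, ha i, mul_one]
    have := val_int_le_one V ((i : ℤ) - k)
    simpa using this
  · simp

theorem intg_fP' {a : ℕ → K} (ha : ∀ i, V.valuation (a i) = 1) (n k : ℕ) {y : K}
    (hy : V.valuation y ≤ 1) :
    Intg V.valuation (fP a n k y) := by
  intro i
  rw [coeff_fP]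
  split_ifs
  · exact hy
  · exact (ha i).le
  · simp

theorem val_one_sub (hp : p.Prime) (hV : V.valuation (p : K) < 1) {k : ℕ} (hk : p ∣ k) :
    V.valuation ((1 : K) - k) = 1 := by
  have h : ¬ (p : ℤ) ∣ (1 - (k : ℤ)) := by
    intro h
    have h1 : (p : ℤ) ∣ 1 := by
      have h2 : (p : ℤ) ∣ (k : ℤ) := by exact_mod_cast hk
      have := dvd_add h h2
      simpa using this
    have h3 : p ∣ 1 := by exact_mod_cast h1
    exact hp.one_lt.ne' (Nat.dvd_one.mp h3)
  have := val_int_eq_one V hV hp h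
  simpa using this

theorem special_root (hp : p.Prime) (hV : V.valuation (p : K) < 1) {a : ℕ → K}
    (ha : ∀ i, V.valuation (a i) = 1) {n k : ℕ} (hk0 : 0 < k) (hkn : k ≤ n) (hkp : p ∣ k)
    {x : K} (hx : V.valuation x < 1) (hx0 : x ≠ 0) (hR : (RP a n k).eval x = 0) :
    V.valuation x = V.valuation (k : K) ∧ V.valuation ((fP a n k 0).eval x) = 1 ∧
    V.valuation ((fP a n k 0).eval x / x ^ k * (k : K) ^ k * a 0 ^ k - a 0 * a 1 ^ k) < 1 := by
  have hk2 : 2 ≤ k := hp.two_le.trans (Nat.le_of_dvd hk0 hkp)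
  set R₁ := (RP a n k).divX with hR1
  have hR1int : Intg V.valuation R₁ := Intg.divX _ (intg_RP' V ha n k)
  have hc0 : R₁.coeff 0 = (1 - (k : K)) * a 1 := by
    rw [hR1, coeff_divX, coeff_RP, if_pos (by omega)]
    simp
  have hv0 : V.valuation (R₁.coeff 0) = 1 := by
    rw [hc0, map_mul, ha 1, mul_one, val_one_sub V hp hV hkp]
  have hR1x : V.valuation (R₁.eval x) = 1 := val_eval_eq_one _ hR1int hx hv0
  have hmul : R₁.eval x * x = k * a 0 := by
    have h1 : (RP a n k).eval x = R₁.eval x * x + (RP a n k).coeff 0 := by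
      nth_rewrite 1 [← divX_mul_X_add (RP a n k)]
      rw [eval_add, eval_mul, eval_X, eval_C]
    rw [hR, coeff_RP, if_pos (Nat.zero_le _)] at h1
    push_cast at h1
    linear_combination -h1
  have hvx : V.valuation x = V.valuation (k : K) := by
    have := congrArg V.valuation hmul
    rw [map_mul, map_mul, hR1x, ha 0, one_mul, mul_one] at this
    exact this
  have hgint : Intg V.valuation (fP a n k 0) := intg_fP' V ha n k (by simp)
  have hg0 : (fP a n k 0).coeff 0 = a 0 := by
    rw [coeff_fP, if_pos (Nat.zero_le _), if_neg (by omega)]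
  have hgx : V.valuation ((fP a n k 0).eval x) = 1 :=
    val_eval_eq_one _ hgint hx (by rw [hg0, ha 0])
  refine ⟨hvx, hgx, ?_⟩
  have e1 : (fP a n k 0).eval x / x ^ k * (k : K) ^ k * a 0 ^ k
      = (fP a n k 0).eval x * R₁.eval x ^ k := by
    have h2 : R₁.eval x ^ k * x ^ k = (k : K) ^ k * a 0 ^ k := by
      rw [← mul_pow, hmul, mul_pow]
    have hxk : x ^ k ≠ 0 := pow_ne_zero _ hx0
    field_simp
    rw [mul_assoc, ← h2]
    ring
  rw [e1]
  refine close_mul _ hgx.le ?_ ?_ ?_
  · rw [map_pow, ha 1, one_pow]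
  · have := val_eval_sub_lt V.valuation hgint hx
    rwa [hg0] at this
  · refine close_pow _ hR1x.le (ha 1).le ?_ k
    have h3 := val_eval_sub_lt V.valuation hR1int hx
    rw [hc0] at h3
    have h4 : R₁.eval x - a 1 = (R₁.eval x - (1 - (k : K)) * a 1) - k * a 1 := by ring
    rw [h4]
    refine V.valuation.map_sub_lt h3 ?_
    rw [map_mul, ha 1, mul_one]
    exact val_nat_lt_one V hV hkp

end special

section reversed

variable {K : Type*} [Field K]

theorem eval_RP (a : ℕ → K) (n k : ℕ) (x : K) :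
    (RP a n k).eval x = ∑ i ∈ Finset.range (n + 1), ((i : K) - k) * a i * x ^ i := by
  unfold RP
  rw [eval_finsetSum]
  simp only [eval_monomial]

theorem eval_fP (a : ℕ → K) (n k : ℕ) (y x : K) :
    (fP a n k y).eval x = ∑ i ∈ Finset.range (n + 1), (if i = k then y else a i) * x ^ i := by
  unfold fP
  rw [eval_finsetSum]
  simp only [eval_monomial]

/-- The reversed coefficient sequence. -/
def arev (a : ℕ → K) (n : ℕ) (i : ℕ) : K := a (n - i)

theorem eval_RP_rev (a : ℕ → K) {n k : ℕ} (hk : k ≤ n) {x : K} (hx : x ≠ 0) :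
    (RP (arev a n) n (n - k)).eval x⁻¹ = -(x⁻¹ ^ n * (RP a n k).eval x) := by
  rw [eval_RP, eval_RP, ← Finset.sum_range_reflect, Finset.mul_sum, ← Finset.sum_neg_distrib]
  refine Finset.sum_congr rfl (fun i hi => ?_)
  have hi' : i ≤ n := by
    rw [Finset.mem_range] at hi
    omega
  have e1 : n + 1 - 1 - i = n - i := by omega
  have e2 : arev a n (n - i) = a i := by
    unfold arev
    congr 1
    omega
  rw [e1, e2, Nat.cast_sub hi', Nat.cast_sub hk]
  have e3 : x⁻¹ ^ n * x ^ i = x⁻¹ ^ (n - i) := by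
    have : n = (n - i) + i := by omega
    nth_rewrite 1 [this]
    rw [pow_add, mul_assoc, ← mul_pow, inv_mul_cancel₀ hx, one_pow, mul_one]
  rw [← e3]
  ring

theorem eval_fP_rev (a : ℕ → K) {n k : ℕ} (hk : k ≤ n) {x : K} (hx : x ≠ 0) :
    (fP (arev a n) n (n - k) 0).eval x⁻¹ = x⁻¹ ^ n * (fP a n k 0).eval x := by
  rw [eval_fP, eval_fP, ← Finset.sum_range_reflect, Finset.mul_sum]
  refine Finset.sum_congr rfl (fun i hi => ?_)
  have hi' : i ≤ n := by
    rw [Finset.mem_range] at hi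
    omega
  have e1 : n + 1 - 1 - i = n - i := by omega
  have e2 : arev a n (n - i) = a i := by
    unfold arev
    congr 1
    omega
  have e3 : x⁻¹ ^ n * x ^ i = x⁻¹ ^ (n - i) := by
    have : n = (n - i) + i := by omega
    nth_rewrite 1 [this]
    rw [pow_add, mul_assoc, ← mul_pow, inv_mul_cancel₀ hx, one_pow, mul_one]
  have e4 : (n - i = n - k) ↔ i = k := by omega
  rw [e1, e2, ← e3]
  by_cases h : i = k
  · rw [if_pos (e4.mpr h), if_pos h]; ring
  · rw [if_neg (fun h' => h (e4.mp h')), if_neg h]; ring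

theorem RP_rev_prod [CharZero K] {ι : Type*} [Fintype ι] (a : ℕ → K) {n k ε : ℕ} (hk : k ≤ n)
    (hε : Fintype.card ι + ε = n) (x : ι → K) (hx : ∀ j, x j ≠ 0) (c : K)
    (hR : RP a n k = X ^ ε * (C c * ∏ j, (X - C (x j)))) :
    RP (arev a n) n (n - k) = C (-(c * ∏ j, (-x j))) * ∏ j, (X - C (x j)⁻¹) := by
  apply Polynomial.eq_of_infinite_eval_eq
  have hinf : ({0}ᶜ : Set K).Infinite := (Set.finite_singleton (0 : K)).infinite_compl
  refine hinf.mono ?_
  intro t ht
  have ht0 : t ≠ 0 := by simpa using ht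
  change eval t _ = eval t _
  have h1 := eval_RP_rev a hk (inv_ne_zero ht0)
  rw [inv_inv] at h1
  rw [h1, hR, eval_mul, eval_mul, eval_pow, eval_X, eval_C, eval_prod, eval_mul, eval_C,
    eval_prod, ← hε, pow_add]
  have h2 : t ^ Fintype.card ι * ∏ j, eval t⁻¹ (X - C (x j))
      = (∏ j, (-x j)) * ∏ j, eval t (X - C (x j)⁻¹) := by
    rw [← Finset.card_univ, ← Finset.prod_const, ← Finset.prod_mul_distrib,
      ← Finset.prod_mul_distrib]
    refine Finset.prod_congr rfl (fun j _ => ?_)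
    have := hx j
    simp only [eval_sub, eval_X, eval_C]
    field_simp
    ring
  have h3 : t ^ ε * t⁻¹ ^ ε = 1 := by
    rw [← mul_pow, mul_inv_cancel₀ ht0, one_pow]
  calc -(t ^ Fintype.card ι * t ^ ε * (t⁻¹ ^ ε * (c * ∏ j, eval t⁻¹ (X - C (x j)))))
      = -((t ^ ε * t⁻¹ ^ ε) * (c * (t ^ Fintype.card ι * ∏ j, eval t⁻¹ (X - C (x j))))) := by ring
    _ = _ := by rw [h3, h2]; ring

end reversed

end Pool.Agent.T2H54.DD
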