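import Mathlib
import Pool.Agent.T2H54.DD.Regular
import Pool.Agent.T2H54.DD.Special

/-!
# The two special critical values are not congruent
-/

namespace Pool.Agent.T2H54.DD

open Polynomial

variable {p : ℕ} {K : Type*} [Field K] {φ : MvPolynomial ℕ ℤ →+* K} {V : ValuationSubring K}

theorem not_lt_relation (hp : p.Prime) (hD : Dom p K φ V) {n k r : ℕ} (hk0 : 0 < k)
    (hn : 4 ≤ n) {M' N' : ℕ} (hN' : ¬ p ∣ N') :
    ¬ V.valuation ((N' : K) * aK φ 0 * aK φ 1 ^ k * aK φ n ^ r
      - (M' : K) * aK φ n * aK φ (n - 1) ^ r * aK φ 0 ^ k) < 1 := by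
  classical
  intro hlt
  set P : MvPolynomial ℕ ℤ :=
    MvPolynomial.monomial (Finsupp.single 0 1 + Finsupp.single 1 k + Finsupp.single n r) (N' : ℤ)
    - MvPolynomial.monomial
      (Finsupp.single n 1 + Finsupp.single (n - 1) r + Finsupp.single 0 k) (M' : ℤ) with hP
  have h1 : φ P = (N' : K) * aK φ 0 * aK φ 1 ^ k * aK φ n ^ r
      - (M' : K) * aK φ n * aK φ (n - 1) ^ r * aK φ 0 ^ k := by
    rw [hP]
    unfold aK
    simp only [map_sub, MvPolynomial.monomial_add_single,
      ← MvPolynomial.C_mul_X_pow_eq_monomial, map_mul, map_pow, pow_one]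
    simp
  have h2 : ∀ m, (p : ℤ) ∣ P.coeff m := by
    by_contra hall
    have := hD.eq P hall
    rw [h1] at this
    rw [this] at hlt
    exact lt_irrefl _ hlt
  have h3 := h2 (Finsupp.single 0 1 + Finsupp.single 1 k + Finsupp.single n r)
  rw [hP, MvPolynomial.coeff_sub, MvPolynomial.coeff_monomial, MvPolynomial.coeff_monomial,
    if_pos rfl, if_neg, sub_zero] at h3
  · exact hN' (by exact_mod_cast h3)
  · intro heq
    have := DFunLike.congr_fun heq 1
    have a1 : n ≠ 1 := by omega
    have a2 : n - 1 ≠ 1 := by omega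
    simp [Finsupp.add_apply, Finsupp.single_apply, a1, a2] at this
    omega

theorem special_distinct (hp : p.Prime) (hD : Dom p K φ V) {n k r : ℕ} (hk0 : 0 < k)
    (hr0 : 0 < r) (hn : 4 ≤ n) {z0 zi : K}
    (h0 : V.valuation z0 * V.valuation (k : K) ^ k = 1)
    (hi : V.valuation zi * V.valuation (r : K) ^ r = 1)
    (h0' : V.valuation (z0 * (k : K) ^ k * aK φ 0 ^ k - aK φ 0 * aK φ 1 ^ k) < 1)
    (hi' : V.valuation (zi * (r : K) ^ r * aK φ n ^ r - aK φ n * aK φ (n - 1) ^ r) < 1) :
    V.valuation (z0 - zi) = max (V.valuation z0) (V.valuation zi) := by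
  have hchar := charZero_of_injective φ hD.inj
  refine le_antisymm (V.valuation.map_sub _ _) (not_lt.mp fun hlt => ?_)
  -- the valuations agree
  have heq : V.valuation z0 = V.valuation zi := by
    by_contra hne
    rcases lt_or_gt_of_ne hne with h | h
    · rw [V.valuation.map_sub_eq_of_lt_right h, max_eq_right h.le] at hlt
      exact lt_irrefl _ hlt
    · rw [V.valuation.map_sub_eq_of_lt_left h, max_eq_left h.le] at hlt
      exact lt_irrefl _ hlt
  rw [← heq, max_self] at hlt
  have hM0 : k ^ k ≠ 0 := pow_ne_zero _ hk0.ne'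
  have hN0 : r ^ r ≠ 0 := pow_ne_zero _ hr0.ne'
  have hz0 : V.valuation z0 ≠ 0 := by
    intro h
    rw [h, zero_mul] at h0
    exact zero_ne_one h0
  have hMN : V.valuation ((k ^ k : ℕ) : K) = V.valuation ((r ^ r : ℕ) : K) := by
    push_cast
    rw [map_pow, map_pow]
    rw [← heq, ← h0] at hi
    exact (mul_left_cancel₀ hz0 hi).symm
  have hfac := factorization_eq_of_val_eq V hD.val_p hp hM0 hN0 hMN
  set e := (k ^ k).factorization p with he
  set M' := k ^ k / p ^ e with hM'
  set N' := r ^ r / p ^ e with hN'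
  have hMeq : p ^ e * M' = k ^ k := Nat.ordProj_mul_ordCompl_eq_self (k ^ k) p
  have hNeq : p ^ e * N' = r ^ r := by
    have := Nat.ordProj_mul_ordCompl_eq_self (r ^ r) p
    rw [← hfac] at this
    exact this
  have hNdvd : ¬ p ∣ N' := by
    have := Nat.not_dvd_ordCompl hp hN0
    rw [← hfac] at this
    exact this
  have hMK : (k : K) ^ k = (p : K) ^ e * M' := by exact_mod_cast hMeq.symm
  have hNK : (r : K) ^ r = (p : K) ^ e * N' := by exact_mod_cast hNeq.symm
  have hve : V.valuation z0 * V.valuation (p : K) ^ e = 1 := by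
    rw [← h0]
    congr 1
    rw [← map_pow, ← map_pow, hMK, map_mul, val_nat_eq_one V hD.val_p hp (m := M') , mul_one]
    exact Nat.not_dvd_ordCompl hp hM0
  have hdiff : V.valuation ((N' : K) * (z0 * (k : K) ^ k) - (M' : K) * (zi * (r : K) ^ r)) < 1 := by
    have e1 : (N' : K) * (z0 * (k : K) ^ k) - (M' : K) * (zi * (r : K) ^ r)
        = (N' : K) * M' * ((p : K) ^ e * (z0 - zi)) := by
      rw [hMK, hNK]; ring
    rw [e1, map_mul, map_mul, map_mul, map_pow]
    calc V.valuation (N' : K) * V.valuation (M' : K)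
          * (V.valuation (p : K) ^ e * V.valuation (z0 - zi))
        ≤ V.valuation (p : K) ^ e * V.valuation (z0 - zi) :=
          mul_le_of_le_one_left' (mul_le_one' (val_nat_le_one V _) (val_nat_le_one V _))
      _ < V.valuation (p : K) ^ e * V.valuation z0 := by
          refine mul_lt_mul_of_pos_left hlt ?_
          rw [zero_lt_iff]
          refine pow_ne_zero _ ?_
          simp [hp.ne_zero]
      _ = 1 := by rw [mul_comm, hve]
  apply not_lt_relation hp hD (r := r) hk0 hn (M' := M') hNdvd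
  have ha0 : V.valuation (aK φ 0) = 1 := hD.val_a hp 0
  have han : V.valuation (aK φ n) = 1 := hD.val_a hp n
  have e2 : (N' : K) * aK φ 0 * aK φ 1 ^ k * aK φ n ^ r
      - (M' : K) * aK φ n * aK φ (n - 1) ^ r * aK φ 0 ^ k
      = (aK φ n ^ r * aK φ 0 ^ k)
          * ((N' : K) * (z0 * (k : K) ^ k) - (M' : K) * (zi * (r : K) ^ r))
        + (M' : K) * aK φ 0 ^ k
          * (zi * (r : K) ^ r * aK φ n ^ r - aK φ n * aK φ (n - 1) ^ r)
        - (N' : K) * aK φ n ^ r * (z0 * (k : K) ^ k * aK φ 0 ^ k - aK φ 0 * aK φ 1 ^ k) := by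
    ring
  rw [e2]
  refine V.valuation.map_sub_lt (V.valuation.map_add_lt ?_ ?_) ?_
  · rw [map_mul, map_mul, map_pow, map_pow, ha0, han, one_pow, one_pow, one_mul, one_mul]
    exact hdiff
  · rw [map_mul, map_mul, map_pow, ha0, one_pow, mul_one]
    exact lt_of_le_of_lt (mul_le_of_le_one_left' (val_nat_le_one V _)) hi'
  · rw [map_mul, map_mul, map_pow, han, one_pow, mul_one]
    exact lt_of_le_of_lt (mul_le_of_le_one_left' (val_nat_le_one V _)) h0'

theorem val_gcd (V : ValuationSubring K) (m m' : ℕ) :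
    V.valuation ((Nat.gcd m m' : ℕ) : K) = max (V.valuation (m : K)) (V.valuation (m' : K)) := by
  refine le_antisymm ?_ (max_le ?_ ?_)
  · have h := Nat.gcd_eq_gcd_ab m m'
    have h1 : ((Nat.gcd m m' : ℕ) : K) = (m : K) * (Nat.gcdA m m' : ℤ)
        + (m' : K) * (Nat.gcdB m m' : ℤ) := by
      exact_mod_cast congrArg (Int.cast (R := K)) h
    rw [h1]
    refine (V.valuation.map_add _ _).trans (max_le_max ?_ ?_)
    · rw [map_mul]
      exact mul_le_of_le_one_right' (val_int_le_one V _)
    · rw [map_mul]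
      exact mul_le_of_le_one_right' (val_int_le_one V _)
  · obtain ⟨t, ht⟩ := Nat.gcd_dvd_left m m'
    nth_rewrite 1 [ht]
    push_cast
    rw [map_mul]
    exact mul_le_of_le_one_right' (val_nat_le_one V _)
  · obtain ⟨t, ht⟩ := Nat.gcd_dvd_right m m'
    nth_rewrite 1 [ht]
    push_cast
    rw [map_mul]
    exact mul_le_of_le_one_right' (val_nat_le_one V _)

end Pool.Agent.T2H54.DD
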