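import Mathlib
import Pool.Agent.T2H54.DD.Distinct
import Pool.Agent.T2H54.DD.Discr

/-!
# Valuation computation, part 1: the roots
-/

namespace Pool.Agent.T2H54.DD

open Polynomial

/-- The factorisation of `RP a n k` (up to the factor `X` for `k = 0`). -/
structure RootData {K : Type*} [Field K] {ι : Type*} [Fintype ι] (a : ℕ → K) (n k ε : ℕ)
    (x : ι → K) (c : K) : Prop where
  hk : k < n
  hn : 2 ≤ n
  hε : (k = 0 ∧ ε = 1) ∨ (0 < k ∧ ε = 0)
  card : Fintype.card ι + ε = n
  ne : ∀ j, x j ≠ 0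
  prod : RP a n k = X ^ ε * (C c * ∏ j, (X - C (x j)))

variable {p : ℕ} {K : Type*} [Field K] {φ : MvPolynomial ℕ ℤ →+* K} {V : ValuationSubring K}
variable {ι : Type*} [Fintype ι] [DecidableEq ι] {n k ε : ℕ} {x : ι → K} {c : K}

section

variable {a : ℕ → K} (H : RootData a n k ε x c)

include H

theorem RootData.c_eq : c = ((n : K) - k) * a n := by
  have h1 : (RP a n k).coeff n = ((n : K) - k) * a n := by
    rw [coeff_RP, if_pos le_rfl]
  have hmon : (∏ j : ι, (X - C (x j)) : K[X]).Monic :=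
    monic_prod_of_monic _ _ (fun j _ => monic_X_sub_C (x j))
  have hdeg : (∏ j : ι, (X - C (x j)) : K[X]).natDegree = Fintype.card ι := by
    rw [natDegree_prod_of_monic _ _ (fun j _ => monic_X_sub_C (x j))]
    simp
  have h2 : (∏ j : ι, (X - C (x j)) : K[X]).coeff (Fintype.card ι) = 1 := by
    rw [← hdeg]
    exact hmon.coeff_natDegree
  rw [← h1, H.prod]
  have h3 : n = Fintype.card ι + ε := H.card.symm
  rw [h3, mul_comm, coeff_mul_X_pow, coeff_C_mul, h2, mul_one]

theorem RootData.eval_eq_zero (j : ι) : (RP a n k).eval (x j) = 0 := by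
  rw [H.prod, eval_mul, eval_mul, eval_prod, Finset.prod_eq_zero (Finset.mem_univ j) (by simp)]
  simp

end

theorem val_cast_sub {n k : ℕ} (hk : k ≤ n) :
    V.valuation ((n : K) - k) = V.valuation ((n - k : ℕ) : K) := by
  rw [Nat.cast_sub hk]

theorem RootData.val_c (hp : p.Prime) (hD : Dom p K φ V) (H : RootData (aK φ) n k ε x c) :
    V.valuation c = V.valuation ((n - k : ℕ) : K) := by
  rw [H.c_eq, map_mul, hD.val_a hp n, mul_one, val_cast_sub H.hk.le]

/-- The product of the roots. -/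
theorem RootData.prod_roots (hp : p.Prime) (hD : Dom p K φ V) (H : RootData (aK φ) n k ε x c) :
    (V.valuation ((n - k : ℕ) : K) * ∏ j, V.valuation (x j)) ^ k = V.valuation (k : K) ^ k := by
  rcases H.hε with ⟨h0, _⟩ | ⟨h0, h1⟩
  · rw [h0, pow_zero, pow_zero]
  · congr 1
    have h2 : (RP (aK φ) n k).coeff 0 = c * ∏ j, (-x j) := by
      rw [coeff_zero_eq_eval_zero, H.prod, h1, pow_zero, one_mul, eval_mul, eval_prod]
      simp
    rw [coeff_RP, if_pos (Nat.zero_le _)] at h2
    have h3 := congrArg V.valuation h2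
    rw [map_mul, map_mul, hD.val_a hp 0, mul_one, H.val_c hp hD, map_prod] at h3
    simp only [Valuation.map_neg] at h3
    rw [← h3]
    simp [Valuation.map_neg]

/-- The polynomial without its factor `X`. -/
theorem RootData.intg (hp : p.Prime) (hD : Dom p K φ V) (H : RootData (aK φ) n k ε x c) :
    Intg V.valuation (C c * ∏ j, (X - C (x j))) := by
  intro i
  have h1 := intg_RP hp hD n k (i + ε)
  rw [H.prod, mul_comm (X ^ ε), coeff_mul_X_pow] at h1
  exact h1

theorem RootData.coeff_eq {a : ℕ → K} (H : RootData a n k ε x c) (i : ℕ) :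
    (C c * ∏ j, (X - C (x j)) : K[X]).coeff i = (RP a n k).coeff (i + ε) := by
  rw [H.prod, mul_comm (X ^ ε), coeff_mul_X_pow]

theorem RootData.no_small (hp : p.Prime) (hD : Dom p K φ V) (H : RootData (aK φ) n k ε x c)
    (h : ¬ (0 < k ∧ p ∣ k)) (j : ι) : ¬ V.valuation (x j) < 1 := by
  apply no_small_root V.valuation x c (H.intg hp hD) rfl
  rw [H.coeff_eq, zero_add]
  rcases H.hε with ⟨h0, h1⟩ | ⟨h0, h1⟩
  · subst h0 h1
    have := H.hn
    rw [coeff_RP, if_pos (by omega), map_mul, hD.val_a hp 1]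
    simp
  · subst h1
    rw [coeff_RP, if_pos (by omega), map_mul, hD.val_a hp 0, mul_one]
    have h2 : ¬ p ∣ k := fun h' => h ⟨h0, h'⟩
    have h3 := val_nat_eq_one V hD.val_p hp h2
    rw [Nat.cast_zero, zero_sub, Valuation.map_neg, h3]

theorem RootData.exists_small (hp : p.Prime) (hD : Dom p K φ V) (H : RootData (aK φ) n k ε x c)
    (h0 : 0 < k) (hpk : p ∣ k) : ∃ s, V.valuation (x s) < 1 ∧
      ∀ j, V.valuation (x j) < 1 → j = s := by
  have hε : ε = 0 := by
    rcases H.hε with ⟨h1, _⟩ | ⟨_, h1⟩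
    · omega
    · exact h1
  have hk := H.hk
  have hc0 : V.valuation ((C c * ∏ j, (X - C (x j)) : K[X]).coeff 0) < 1 := by
    rw [H.coeff_eq, hε, coeff_RP, if_pos (by omega), map_mul, hD.val_a hp, mul_one]
    have h3 := val_nat_lt_one V hD.val_p hpk
    simpa using h3
  have hc1 : V.valuation ((C c * ∏ j, (X - C (x j)) : K[X]).coeff 1) = 1 := by
    rw [H.coeff_eq, hε, coeff_RP, if_pos (by omega), map_mul, hD.val_a hp, mul_one]
    have h3 := val_one_sub V hp hD.val_p hpk
    simpa using h3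
  obtain ⟨s, hs⟩ := exists_small_root V.valuation x c rfl hc0 hc1
  exact ⟨s, hs, fun j hj => small_root_unique V.valuation x c (H.intg hp hD) rfl hc1 hj hs⟩

theorem val_arev (hp : p.Prime) (hD : Dom p K φ V) (n i : ℕ) :
    V.valuation (arev (aK φ) n i) = 1 := hD.val_a hp _

theorem RootData.rev_prod (hD : Dom p K φ V) (H : RootData (aK φ) n k ε x c) :
    RP (arev (aK φ) n) n (n - k) = C (-(c * ∏ j, (-x j))) * ∏ j, (X - C (x j)⁻¹) := by
  have := charZero_of_injective φ hD.inj
  exact RP_rev_prod (aK φ) H.hk.le H.card x H.ne c H.prod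

theorem RootData.no_large (hp : p.Prime) (hD : Dom p K φ V) (H : RootData (aK φ) n k ε x c)
    (h : ¬ p ∣ n - k) (j : ι) : ¬ 1 < V.valuation (x j) := by
  have hint : Intg V.valuation (RP (arev (aK φ) n) n (n - k)) :=
    intg_RP' V (fun i => val_arev hp hD n i) n (n - k)
  have h1 := no_small_root V.valuation (fun j => (x j)⁻¹) _ hint (H.rev_prod hD) (by
    rw [coeff_RP, if_pos (Nat.zero_le _), map_mul, val_arev hp hD, mul_one, Nat.cast_zero,
      zero_sub, Valuation.map_neg, val_nat_eq_one V hD.val_p hp h]) j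
  intro h2
  apply h1
  rw [map_inv₀]
  exact inv_lt_one_of_one_lt₀ h2

theorem RootData.exists_large (hp : p.Prime) (hD : Dom p K φ V) (H : RootData (aK φ) n k ε x c)
    (h : p ∣ n - k) : ∃ s, 1 < V.valuation (x s) ∧
      ∀ j, 1 < V.valuation (x j) → j = s := by
  have hk := H.hk
  have hn := H.hn
  have hint : Intg V.valuation (RP (arev (aK φ) n) n (n - k)) :=
    intg_RP' V (fun i => val_arev hp hD n i) n (n - k)
  have hc0 : V.valuation ((RP (arev (aK φ) n) n (n - k)).coeff 0) < 1 := by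
    rw [coeff_RP, if_pos (Nat.zero_le _), map_mul, val_arev hp hD, mul_one, Nat.cast_zero,
      zero_sub, Valuation.map_neg]
    exact val_nat_lt_one V hD.val_p h
  have hc1 : V.valuation ((RP (arev (aK φ) n) n (n - k)).coeff 1) = 1 := by
    rw [coeff_RP, if_pos (by omega), map_mul, val_arev hp hD, mul_one, Nat.cast_one]
    exact val_one_sub V hp hD.val_p h
  obtain ⟨s, hs⟩ := exists_small_root V.valuation (fun j => (x j)⁻¹) _ (H.rev_prod hD) hc0 hc1
  refine ⟨s, ?_, fun j hj => ?_⟩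
  · rw [map_inv₀] at hs
    exact (inv_lt_one₀ (by rw [zero_lt_iff]; simpa using H.ne s)).mp hs
  · refine small_root_unique V.valuation (fun j => (x j)⁻¹) _ hint (H.rev_prod hD) hc1 ?_ hs
    rw [map_inv₀]
    exact inv_lt_one_of_one_lt₀ hj

/-- Data at a small root. -/
theorem RootData.small (hp : p.Prime) (hD : Dom p K φ V) (H : RootData (aK φ) n k ε x c)
    (h0 : 0 < k) (hpk : p ∣ k) {s : ι} (hs : V.valuation (x s) < 1) :
    V.valuation ((fP (aK φ) n k 0).eval (x s) / x s ^ k) * V.valuation (k : K) ^ k = 1 ∧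
    V.valuation ((fP (aK φ) n k 0).eval (x s) / x s ^ k * (k : K) ^ k * aK φ 0 ^ k
      - aK φ 0 * aK φ 1 ^ k) < 1 := by
  obtain ⟨h1, h2, h3⟩ := special_root V hp hD.val_p (fun i => hD.val_a hp i) h0 H.hk.le hpk hs
    (H.ne s) (H.eval_eq_zero s)
  refine ⟨?_, h3⟩
  rw [map_div₀, h2, map_pow, h1, one_div]
  refine inv_mul_cancel₀ (pow_ne_zero _ ?_)
  rw [← h1]
  simpa using H.ne s

/-- Data at a large root. -/
theorem RootData.large (hp : p.Prime) (hD : Dom p K φ V) (H : RootData (aK φ) n k ε x c)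
    (hpr : p ∣ n - k) {s : ι} (hs : 1 < V.valuation (x s)) :
    V.valuation (x s) * V.valuation ((n - k : ℕ) : K) = 1 ∧
    V.valuation ((fP (aK φ) n k 0).eval (x s) / x s ^ k)
      * V.valuation ((n - k : ℕ) : K) ^ (n - k) = 1 ∧
    V.valuation ((fP (aK φ) n k 0).eval (x s) / x s ^ k * ((n - k : ℕ) : K) ^ (n - k)
      * aK φ n ^ (n - k) - aK φ n * aK φ (n - 1) ^ (n - k)) < 1 := by
  have hk := H.hk
  have hxs := H.ne s
  have hroot : (RP (arev (aK φ) n) n (n - k)).eval (x s)⁻¹ = 0 := by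
    rw [eval_RP_rev _ hk.le hxs, H.eval_eq_zero s]
    simp
  have hinv : V.valuation (x s)⁻¹ < 1 := by
    rw [map_inv₀]
    exact inv_lt_one_of_one_lt₀ hs
  obtain ⟨h1, h2, h3⟩ := special_root V hp hD.val_p (fun i => val_arev hp hD n i)
    (show 0 < n - k by omega) (Nat.sub_le n k) hpr hinv (inv_ne_zero hxs) hroot
  have e1 : (fP (arev (aK φ) n) n (n - k) 0).eval (x s)⁻¹ / (x s)⁻¹ ^ (n - k)
      = (fP (aK φ) n k 0).eval (x s) / x s ^ k := by
    rw [eval_fP_rev _ hk.le hxs]
    have e2 : (x s)⁻¹ ^ n = (x s)⁻¹ ^ (n - k) * (x s)⁻¹ ^ k := by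
      rw [← pow_add]
      congr 1
      omega
    rw [e2, inv_pow, inv_pow]
    field_simp
  have hvx : V.valuation (x s) ≠ 0 := by simpa using hxs
  have h4 : V.valuation (x s) * V.valuation ((n - k : ℕ) : K) = 1 := by
    rw [← h1, map_inv₀, mul_inv_cancel₀ hvx]
  refine ⟨h4, ?_, ?_⟩
  · rw [← e1, map_div₀, h2, map_pow, h1, one_div]
    refine inv_mul_cancel₀ (pow_ne_zero _ ?_)
    intro h0
    rw [h0, mul_zero] at h4
    exact zero_ne_one h4
  · rw [e1] at h3
    unfold arev at h3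
    simpa using h3

end Pool.Agent.T2H54.DD
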