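import Mathlib
import Pool.Agent.T2H54.DD.Core1

/-!
# Valuation computation, part 2: the product of differences at a regular root
-/

namespace Pool.Agent.T2H54.DD

open Polynomial

variable {p : ℕ} {K : Type*} [Field K] {φ : MvPolynomial ℕ ℤ →+* K} {V : ValuationSubring K}
variable {ι : Type*} [Fintype ι] [DecidableEq ι] {n k ε : ℕ} {x : ι → K} {c : K}

/-- The (negatives of the) critical values. -/
noncomputable def zK (φ : MvPolynomial ℕ ℤ →+* K) (n k : ℕ) (x : ι → K) (j : ι) : K :=
  (fP (aK φ) n k 0).eval (x j) / x j ^ k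

/-- Regular roots have integral critical values. -/
theorem val_z_le (hp : p.Prime) (hD : Dom p K φ V) {i : ι} (hi : V.valuation (x i) = 1) :
    V.valuation (zK φ n k x i) ≤ 1 := by
  unfold zK
  rw [map_div₀, map_pow, hi, one_pow, div_one]
  exact val_eval_le _ (intg_fP hp hD n k (by simp)) hi.le

/-- The cofactor at a root. -/
theorem exists_cofactor (H : RootData (aK φ) n k ε x c) (i : ι) :
    ∃ h : K[X], fP (aK φ) n k (-zK φ n k x i) = (X - C (x i)) ^ 2 * h := by
  have hxi := H.ne i
  have h0 : (fP (aK φ) n k (-zK φ n k x i)).eval (x i) = 0 := by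
    rw [fP_eq_add _ H.hk.le, eval_add, eval_mul, eval_C, eval_pow, eval_X]
    unfold zK
    rw [neg_mul, div_mul_cancel₀ _ (pow_ne_zero _ hxi), add_neg_cancel]
  have h1 : (derivative (fP (aK φ) n k (-zK φ n k x i))).eval (x i) = 0 := by
    have h2 := H.eval_eq_zero i
    rw [RP_eq (aK φ) n k (-zK φ n k x i), eval_sub, eval_mul, eval_mul, h0, mul_zero, sub_zero,
      eval_X] at h2
    exact (mul_eq_zero.mp h2).resolve_left hxi
  exact sq_dvd_of_eval h0 h1

theorem cofactor_facts (hp : p.Prime) (hD : Dom p K φ V) (H : RootData (aK φ) n k ε x c)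
    {i : ι} (hi : V.valuation (x i) = 1) {h : K[X]}
    (hh : fP (aK φ) n k (-zK φ n k x i) = (X - C (x i)) ^ 2 * h) :
    Intg V.valuation h ∧ h.natDegree = n - 2 ∧ V.valuation (h.coeff (n - 2)) = 1 ∧
    (0 < k → V.valuation (h.coeff 0) = 1) := by
  have hyi : V.valuation (-zK φ n k x i) ≤ 1 := by
    rw [Valuation.map_neg]
    exact val_z_le hp hD hi
  have han : aK φ n ≠ 0 := by
    intro h0
    have := hD.val_a hp n
    rw [h0, map_zero] at this
    exact zero_ne_one this
  have hfd : (fP (aK φ) n k (-zK φ n k x i)).natDegree = n := natDegree_fP _ _ H.hk han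
  have hh0 : h ≠ 0 := by
    rintro rfl
    rw [mul_zero] at hh
    rw [hh] at hfd
    have := H.hn
    simp at hfd
    omega
  have hmon : ((X - C (x i)) ^ 2 : K[X]).Monic := (monic_X_sub_C (x i)).pow 2
  have hd2 : ((X - C (x i)) ^ 2 : K[X]).natDegree = 2 := by
    rw [natDegree_pow, natDegree_X_sub_C]
  have hdeg : 2 + h.natDegree = n := by
    rw [hh, hmon.natDegree_mul' hh0, hd2] at hfd
    exact hfd
  have hdeg' : h.natDegree = n - 2 := by omega
  refine ⟨?_, hdeg', ?_, ?_⟩
  · apply Intg.of_sq_mul V.valuation hi.le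
    rw [← hh]
    exact intg_fP hp hD n k hyi
  · rw [← hdeg', coeff_natDegree]
    have h1 : (fP (aK φ) n k (-zK φ n k x i)).leadingCoeff = aK φ n := by
      rw [leadingCoeff, hfd, coeff_fP, if_pos le_rfl, if_neg H.hk.ne']
    rw [hh, leadingCoeff_mul, hmon.leadingCoeff, one_mul] at h1
    rw [h1]
    exact hD.val_a hp n
  · intro hk0
    have h1 : (fP (aK φ) n k (-zK φ n k x i)).coeff 0 = aK φ 0 := by
      rw [coeff_fP, if_pos (Nat.zero_le _), if_neg (by omega)]
    rw [hh, mul_coeff_zero] at h1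
    have h2 := congrArg V.valuation h1
    rw [map_mul, hD.val_a hp 0] at h2
    have h3 : V.valuation (((X - C (x i)) ^ 2 : K[X]).coeff 0) = 1 := by
      rw [coeff_zero_eq_eval_zero]
      simp [hi]
    rw [h3, one_mul] at h2
    exact h2

/-- The valuation of the cofactor at another root. -/
theorem val_cofactor (hp : p.Prime) (hD : Dom p K φ V) (H : RootData (aK φ) n k ε x c)
    {i : ι} (hi : V.valuation (x i) = 1) {h : K[X]}
    (hh : fP (aK φ) n k (-zK φ n k x i) = (X - C (x i)) ^ 2 * h) (j : ι) :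
    V.valuation (h.eval (x j)) = max 1 (V.valuation (x j)) ^ (n - 2) := by
  obtain ⟨hint, hdeg, hlc, hc0⟩ := cofactor_facts hp hD H hi hh
  have hyi : V.valuation (-zK φ n k x i) ≤ 1 := by
    rw [Valuation.map_neg]
    exact val_z_le hp hD hi
  rcases lt_trichotomy (V.valuation (x j)) 1 with hj | hj | hj
  · rw [max_eq_left hj.le, one_pow]
    have hk0 : 0 < k := by
      by_contra h0
      exact H.no_small hp hD (fun h' => h0 h'.1) j hj
    exact val_eval_eq_one _ hint hj (hc0 hk0)
  · rw [hj, max_self, one_pow]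
    exact val_cofactor_eq_one hp hD H.hk hi hyi hh hj (H.eval_eq_zero j)
  · rw [max_eq_right hj.le]
    exact val_eval_of_one_lt _ hint hdeg.le hj hlc

/-- The difference of two critical values. -/
theorem val_z_sub (hp : p.Prime) (hD : Dom p K φ V) (H : RootData (aK φ) n k ε x c)
    {i : ι} (hi : V.valuation (x i) = 1) (j : ι) :
    V.valuation (zK φ n k x i - zK φ n k x j) * V.valuation (x j) ^ k
      = V.valuation (x i - x j) ^ 2 * max 1 (V.valuation (x j)) ^ (n - 2) := by
  obtain ⟨h, hh⟩ := exists_cofactor H i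
  rw [← val_cofactor hp hD H hi hh j, ← map_pow, ← map_pow, ← map_mul, ← map_mul]
  have h1 : (fP (aK φ) n k (-zK φ n k x i)).eval (x j)
      = -((zK φ n k x i - zK φ n k x j) * x j ^ k) := by
    rw [fP_eq_add _ H.hk.le, eval_add, eval_mul, eval_C, eval_pow, eval_X]
    have : (fP (aK φ) n k 0).eval (x j) = zK φ n k x j * x j ^ k := by
      unfold zK
      rw [div_mul_cancel₀ _ (pow_ne_zero _ (H.ne j))]
    rw [this]
    ring
  have h2 : (x i - x j) ^ 2 * h.eval (x j) = (fP (aK φ) n k (-zK φ n k x i)).eval (x j) := by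
    rw [hh, eval_mul, eval_pow, eval_sub, eval_X, eval_C]
    ring
  rw [h2, h1, Valuation.map_neg]

/-- The product of the differences of the roots. -/
theorem val_prod_sub (hp : p.Prime) (hD : Dom p K φ V) (H : RootData (aK φ) n k ε x c)
    {i : ι} (hi : V.valuation (x i) = 1) :
    V.valuation c * ∏ j ∈ Finset.univ.erase i, V.valuation (x i - x j)
      = V.valuation (2 : K) := by
  obtain ⟨h, hh⟩ := exists_cofactor H i
  set f := fP (aK φ) n k (-zK φ n k x i) with hf
  have e1 : (X - C (x i)) * (2 * X * h + (X - C (x i)) * (X * derivative h - C (k : K) * h))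
      = (X - C (x i)) * (X ^ ε * (C c * ∏ j ∈ Finset.univ.erase i, (X - C (x j)))) := by
    have e2 : (X - C (x i)) * (X ^ ε * (C c * ∏ j ∈ Finset.univ.erase i, (X - C (x j))))
        = RP (aK φ) n k := by
      rw [H.prod, ← Finset.mul_prod_erase Finset.univ (fun j => X - C (x j)) (Finset.mem_univ i)]
      ring
    rw [e2, RP_eq (aK φ) n k (-zK φ n k x i), ← hf, hh]
    have e3 : derivative ((X - C (x i)) ^ 2 * h)
        = 2 * (X - C (x i)) * h + (X - C (x i)) ^ 2 * derivative h := by
      rw [pow_two, derivative_mul, derivative_mul, derivative_X_sub_C]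
      ring
    rw [e3]
    ring
  have e4 := mul_left_cancel₀ (X_sub_C_ne_zero (x i)) e1
  have e5 := congrArg (eval (x i)) e4
  simp only [eval_add, eval_mul, eval_sub, eval_X, eval_C, sub_self, zero_mul, add_zero,
    eval_pow, eval_prod] at e5
  have e6 := congrArg V.valuation e5
  simp only [map_mul, map_pow, map_prod, hi, one_pow, one_mul] at e6
  rw [val_cofactor hp hD H hi hh i, hi, max_self, one_pow, mul_one] at e6
  rw [← e6]
  simp

/-- `M = ∏ max(1, v(x_j))` is the inverse of `v(n - k)`. -/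
theorem RootData.prod_max (hp : p.Prime) (hD : Dom p K φ V) (H : RootData (aK φ) n k ε x c) :
    (∏ j, max 1 (V.valuation (x j))) * V.valuation ((n - k : ℕ) : K) = 1 := by
  by_cases hpr : p ∣ n - k
  · obtain ⟨s, hs, hs'⟩ := H.exists_large hp hD hpr
    rw [← Finset.mul_prod_erase Finset.univ _ (Finset.mem_univ s), Finset.prod_eq_one, mul_one,
      max_eq_right hs.le]
    · exact (H.large hp hD hpr hs).1
    · intro j hj
      rw [Finset.mem_erase] at hj
      exact max_eq_left (not_lt.mp fun hlt => hj.1 (hs' j hlt))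
  · rw [val_nat_eq_one V hD.val_p hp hpr, mul_one]
    refine Finset.prod_eq_one (fun j _ => ?_)
    exact max_eq_left (not_lt.mp (H.no_large hp hD hpr j))

/-- The product of the differences of critical values at a regular root. -/
theorem RootData.delta (hp : p.Prime) (hD : Dom p K φ V) (H : RootData (aK φ) n k ε x c)
    {i : ι} (hi : V.valuation (x i) = 1) :
    (∏ j ∈ Finset.univ.erase i, V.valuation (zK φ n k x i - zK φ n k x j))
      * (V.valuation (k : K) ^ k * V.valuation ((n - k : ℕ) : K) ^ (n - k))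
      = V.valuation (4 : K) := by
  have hk := H.hk
  have hn := H.hn
  have hchar := charZero_of_injective φ hD.inj
  set Δ := ∏ j ∈ Finset.univ.erase i, V.valuation (zK φ n k x i - zK φ n k x j) with hΔ
  set ρ := V.valuation ((n - k : ℕ) : K) with hρ
  set κ := V.valuation (k : K) with hκ
  set M := ∏ j, max 1 (V.valuation (x j)) with hM
  set Q := ∏ j, V.valuation (x j) with hQ
  set E := ∏ j ∈ Finset.univ.erase i, V.valuation (x i - x j) with hE
  have h1 : Δ * Q ^ k = E ^ 2 * M ^ (n - 2) := by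
    have hQ' : Q ^ k = ∏ j ∈ Finset.univ.erase i, V.valuation (x j) ^ k := by
      rw [hQ, ← Finset.mul_prod_erase Finset.univ _ (Finset.mem_univ i), hi, one_mul,
        Finset.prod_pow]
    have hM' : M ^ (n - 2) = ∏ j ∈ Finset.univ.erase i, max 1 (V.valuation (x j)) ^ (n - 2) := by
      rw [hM, ← Finset.mul_prod_erase Finset.univ _ (Finset.mem_univ i), hi, max_self, one_mul,
        Finset.prod_pow]
    rw [hQ', hM', hΔ, hE, ← Finset.prod_mul_distrib, ← Finset.prod_pow, ← Finset.prod_mul_distrib]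
    exact Finset.prod_congr rfl (fun j _ => val_z_sub hp hD H hi j)
  have h2 : ρ * E = V.valuation (2 : K) := by
    rw [hρ, ← H.val_c hp hD]
    exact val_prod_sub hp hD H hi
  have h3 : M * ρ = 1 := H.prod_max hp hD
  have h4 : (ρ * Q) ^ k = κ ^ k := H.prod_roots hp hD
  have hρ0 : ρ ≠ 0 := by
    intro h0
    rw [h0, mul_zero] at h3
    exact zero_ne_one h3
  have h5 : V.valuation (4 : K) = V.valuation (2 : K) ^ 2 := by
    rw [← map_pow]
    norm_num
  rw [h5, ← h2]
  apply mul_right_cancel₀ (pow_ne_zero k hρ0)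
  calc Δ * (κ ^ k * ρ ^ (n - k)) * ρ ^ k
      = Δ * κ ^ k * (ρ ^ (n - k) * ρ ^ k) := by
        simp only [mul_assoc]
    _ = Δ * (ρ * Q) ^ k * ρ ^ n := by
        rw [h4, ← pow_add, Nat.sub_add_cancel hk.le]
    _ = (Δ * Q ^ k) * (ρ ^ k * (ρ ^ 2 * ρ ^ (n - 2))) := by
        rw [← pow_add, show 2 + (n - 2) = n by omega, mul_pow]
        simp only [mul_assoc, mul_comm, mul_left_comm]
    _ = E ^ 2 * M ^ (n - 2) * (ρ ^ k * (ρ ^ 2 * ρ ^ (n - 2))) := by rw [h1]
    _ = (ρ * E) ^ 2 * ρ ^ k * (M * ρ) ^ (n - 2) := by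
        rw [mul_pow, mul_pow]
        simp only [mul_assoc, mul_comm, mul_left_comm]
    _ = (ρ * E) ^ 2 * ρ ^ k := by rw [h3, one_pow, mul_one]

end Pool.Agent.T2H54.DD
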