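import Mathlib
import Pool.Agent.T2H54.DD.Core2

/-!
# Valuation computation, part 3: the total
-/

namespace Pool.Agent.T2H54.DD

open Polynomial

section abstract_products

variable {Γ : Type*} [CommMonoid Γ] {ι : Type*} [Fintype ι] [DecidableEq ι]

theorem prod_one_special (w : ι → ι → Γ) (s : ι) (δ Y : Γ)
    (hδ : ∀ i, i ≠ s → ∏ j ∈ Finset.univ.erase i, w i j = δ)
    (hY : ∀ j, j ≠ s → w s j = Y) :
    ∏ i, ∏ j ∈ Finset.univ.erase i, w i j
      = Y ^ (Fintype.card ι - 1) * δ ^ (Fintype.card ι - 1) := by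
  rw [← Finset.mul_prod_erase Finset.univ _ (Finset.mem_univ s)]
  have hc : (Finset.univ.erase s).card = Fintype.card ι - 1 := by
    rw [Finset.card_erase_of_mem (Finset.mem_univ s), Finset.card_univ]
  congr 1
  · rw [Finset.prod_congr rfl (fun j hj => hY j (Finset.ne_of_mem_erase hj)), Finset.prod_const, hc]
  · rw [Finset.prod_congr rfl (fun j hj => hδ j (Finset.ne_of_mem_erase hj)), Finset.prod_const, hc]

theorem prod_two_special (w : ι → ι → Γ) (s t : ι) (hst : s ≠ t) (δ Y Y' E : Γ)
    (hδ : ∀ i, i ≠ s → i ≠ t → ∏ j ∈ Finset.univ.erase i, w i j = δ)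
    (hY : ∀ j, j ≠ s → j ≠ t → w s j = Y) (hY' : ∀ j, j ≠ s → j ≠ t → w t j = Y')
    (hE : w s t = E) (hE' : w t s = E) :
    ∏ i, ∏ j ∈ Finset.univ.erase i, w i j
      = (E * Y ^ (Fintype.card ι - 2)) * ((E * Y' ^ (Fintype.card ι - 2))
        * δ ^ (Fintype.card ι - 2)) := by
  have ht : t ∈ Finset.univ.erase s := Finset.mem_erase.mpr ⟨hst.symm, Finset.mem_univ t⟩
  have hs : s ∈ Finset.univ.erase t := Finset.mem_erase.mpr ⟨hst, Finset.mem_univ s⟩
  have hcomm : (Finset.univ.erase t).erase s = (Finset.univ.erase s).erase t :=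
    Finset.erase_right_comm
  have hc : ((Finset.univ.erase s).erase t).card = Fintype.card ι - 2 := by
    rw [Finset.card_erase_of_mem ht, Finset.card_erase_of_mem (Finset.mem_univ s),
      Finset.card_univ]
    omega
  have e0 := Finset.mul_prod_erase Finset.univ (fun i => ∏ j ∈ Finset.univ.erase i, w i j)
    (Finset.mem_univ s)
  have e1 := Finset.mul_prod_erase (Finset.univ.erase s)
    (fun i => ∏ j ∈ Finset.univ.erase i, w i j) ht
  have e2 := Finset.mul_prod_erase (Finset.univ.erase s) (fun j => w s j) ht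
  have e3 := Finset.mul_prod_erase (Finset.univ.erase t) (fun j => w t j) hs
  have f1 : ∏ j ∈ (Finset.univ.erase s).erase t, w s j = Y ^ (Fintype.card ι - 2) := by
    rw [← hc, ← Finset.prod_const]
    refine Finset.prod_congr rfl (fun j hj => ?_)
    rw [Finset.mem_erase, Finset.mem_erase] at hj
    exact hY j hj.2.1 hj.1
  have f2 : ∏ j ∈ (Finset.univ.erase t).erase s, w t j = Y' ^ (Fintype.card ι - 2) := by
    rw [hcomm, ← hc, ← Finset.prod_const]
    refine Finset.prod_congr rfl (fun j hj => ?_)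
    rw [Finset.mem_erase, Finset.mem_erase] at hj
    exact hY' j hj.2.1 hj.1
  have f3 : ∏ i ∈ (Finset.univ.erase s).erase t, ∏ j ∈ Finset.univ.erase i, w i j
      = δ ^ (Fintype.card ι - 2) := by
    rw [← hc, ← Finset.prod_const]
    refine Finset.prod_congr rfl (fun j hj => ?_)
    rw [Finset.mem_erase, Finset.mem_erase] at hj
    exact hδ j hj.2.1 hj.1
  rw [← e0, ← e1, ← e2, ← e3, f1, f2, f3, hE, hE']

end abstract_products

variable {p : ℕ} {K : Type*} [Field K] {φ : MvPolynomial ℕ ℤ →+* K} {V : ValuationSubring K}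
variable {ι : Type*} [Fintype ι] [DecidableEq ι] {n k ε : ℕ} {x : ι → K} {c : K}

/-- The total product of differences of critical values. -/
noncomputable def TT (V : ValuationSubring K) (φ : MvPolynomial ℕ ℤ →+* K) (n k : ℕ)
    (x : ι → K) : V.ValueGroup :=
  ∏ i, ∏ j ∈ Finset.univ.erase i, V.valuation (zK φ n k x i - zK φ n k x j)

/-- The valuation of the leading coefficient. -/
noncomputable def bet (V : ValuationSubring K) (n k : ℕ) : V.ValueGroup :=
  V.valuation (k : K) ^ k * V.valuation ((n - k : ℕ) : K) ^ (n - k)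

theorem total_none (hp : p.Prime) (hD : Dom p K φ V) (H : RootData (aK φ) n k ε x c)
    (hreg : ∀ j, V.valuation (x j) = 1) (hb : bet V n k = 1) :
    bet V n k ^ (2 * (Fintype.card ι - 1)) * TT V φ n k x
      = V.valuation (4 : K) ^ Fintype.card ι := by
  rw [hb, one_pow, one_mul, TT, ← Finset.card_univ, ← Finset.prod_const]
  refine Finset.prod_congr rfl (fun i _ => ?_)
  have h1 := H.delta hp hD (hreg i)
  have h2 : V.valuation (k : K) ^ k * V.valuation ((n - k : ℕ) : K) ^ (n - k) = 1 := hb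
  rw [h2, mul_one] at h1
  exact h1

theorem total_one (hp : p.Prime) (hD : Dom p K φ V) (H : RootData (aK φ) n k ε x c) (s : ι)
    (hreg : ∀ j, j ≠ s → V.valuation (x j) = 1)
    (hY : V.valuation (zK φ n k x s) * bet V n k = 1)
    (hY1 : 1 < V.valuation (zK φ n k x s)) :
    bet V n k ^ (2 * (Fintype.card ι - 1)) * TT V φ n k x
      = V.valuation (4 : K) ^ (Fintype.card ι - 1) := by
  have hb0 : bet V n k ≠ 0 := by
    intro h0
    rw [h0, mul_zero] at hY
    exact zero_ne_one hY
  have hT : TT V φ n k x = V.valuation (zK φ n k x s) ^ (Fintype.card ι - 1)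
      * (V.valuation (4 : K) * (bet V n k)⁻¹) ^ (Fintype.card ι - 1) := by
    unfold TT
    apply prod_one_special
    · intro i hi
      rw [eq_mul_inv_iff_mul_eq₀ hb0]
      exact H.delta hp hD (hreg i hi)
    · intro j hj
      apply V.valuation.map_sub_eq_of_lt_left
      exact lt_of_le_of_lt (val_z_le hp hD (hreg j hj)) hY1
  rw [hT, ← mul_pow, pow_mul, ← mul_pow]
  congr 1
  rw [pow_two]
  calc bet V n k * bet V n k * (V.valuation (zK φ n k x s)
        * (V.valuation (4 : K) * (bet V n k)⁻¹))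
      = (V.valuation (zK φ n k x s) * bet V n k) * (bet V n k * (bet V n k)⁻¹)
          * V.valuation (4 : K) := by
        simp only [mul_assoc, mul_comm, mul_left_comm]
    _ = V.valuation (4 : K) := by rw [hY, mul_inv_cancel₀ hb0, one_mul, one_mul]

theorem total_two (hp : p.Prime) (hD : Dom p K φ V) (H : RootData (aK φ) n k ε x c) (s t : ι)
    (hst : s ≠ t) (hreg : ∀ j, j ≠ s → j ≠ t → V.valuation (x j) = 1)
    (hY : V.valuation (zK φ n k x s) * V.valuation (k : K) ^ k = 1)
    (hY1 : 1 < V.valuation (zK φ n k x s))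
    (hY' : V.valuation (zK φ n k x t) * V.valuation ((n - k : ℕ) : K) ^ (n - k) = 1)
    (hY1' : 1 < V.valuation (zK φ n k x t))
    (hE : V.valuation (zK φ n k x s - zK φ n k x t)
      = max (V.valuation (zK φ n k x s)) (V.valuation (zK φ n k x t))) :
    bet V n k ^ (2 * (Fintype.card ι - 1)) * TT V φ n k x
      = V.valuation (4 : K) ^ (Fintype.card ι - 2)
        * max (V.valuation (k : K) ^ k) (V.valuation ((n - k : ℕ) : K) ^ (n - k)) ^ 2 := by
  have hd : 2 ≤ Fintype.card ι := by
    have h1 : ({s, t} : Finset ι).card ≤ Fintype.card ι := Finset.card_le_univ _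
    rw [Finset.card_pair hst] at h1
    exact h1
  set Y := V.valuation (zK φ n k x s) with hYdef
  set Y' := V.valuation (zK φ n k x t) with hYdef'
  set κ := V.valuation (k : K) ^ k with hκ
  set ρ := V.valuation ((n - k : ℕ) : K) ^ (n - k) with hρ
  set E := V.valuation (zK φ n k x s - zK φ n k x t) with hEdef
  have hbet : bet V n k = κ * ρ := rfl
  have hκ0 : κ ≠ 0 := by
    intro h0
    rw [h0, mul_zero] at hY
    exact zero_ne_one hY
  have hρ0 : ρ ≠ 0 := by
    intro h0
    rw [h0, mul_zero] at hY'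
    exact zero_ne_one hY'
  have hb0 : bet V n k ≠ 0 := by
    rw [hbet]
    exact mul_ne_zero hκ0 hρ0
  have hT : TT V φ n k x = (E * Y ^ (Fintype.card ι - 2)) * ((E * Y' ^ (Fintype.card ι - 2))
        * (V.valuation (4 : K) * (bet V n k)⁻¹) ^ (Fintype.card ι - 2)) := by
    unfold TT
    apply prod_two_special _ s t hst
    · intro i hi hi'
      rw [eq_mul_inv_iff_mul_eq₀ hb0]
      exact H.delta hp hD (hreg i hi hi')
    · intro j hj hj'
      apply V.valuation.map_sub_eq_of_lt_left
      exact lt_of_le_of_lt (val_z_le hp hD (hreg j hj hj')) hY1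
    · intro j hj hj'
      apply V.valuation.map_sub_eq_of_lt_left
      exact lt_of_le_of_lt (val_z_le hp hD (hreg j hj hj')) hY1'
    · rfl
    · rw [hEdef, V.valuation.map_sub_swap]
  have hβE : bet V n k * E = max κ ρ := by
    rw [hbet, hE]
    rcases le_total Y Y' with h | h
    · have h1 : ρ ≤ κ := by
        calc ρ = Y * (κ * ρ) := by rw [← mul_assoc, hY, one_mul]
          _ ≤ Y' * (κ * ρ) := mul_le_mul_left h _
          _ = κ := by rw [mul_comm κ ρ, ← mul_assoc, hY', one_mul]
      rw [max_eq_right h, max_eq_left h1, mul_assoc, mul_comm ρ, hY', mul_one]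
    · have h1 : κ ≤ ρ := by
        calc κ = Y' * (κ * ρ) := by rw [mul_comm κ ρ, ← mul_assoc, hY', one_mul]
          _ ≤ Y * (κ * ρ) := mul_le_mul_left h _
          _ = ρ := by rw [← mul_assoc, hY, one_mul]
      rw [max_eq_left h, max_eq_right h1, mul_comm κ ρ, mul_assoc, mul_comm κ Y, hY, mul_one]
  have hβYY : bet V n k * (Y * Y') = 1 := by
    rw [hbet]
    calc κ * ρ * (Y * Y') = (Y * κ) * (Y' * ρ) := by
          simp only [mul_assoc, mul_comm, mul_left_comm]
      _ = 1 := by rw [hY, hY', one_mul]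
  have hexp : 2 * (Fintype.card ι - 1) = 2 * (Fintype.card ι - 2) + 2 := by omega
  rw [hT, hexp, pow_add, pow_mul, ← hβE]
  generalize Fintype.card ι - 2 = m
  generalize bet V n k = β at *
  calc (β ^ 2) ^ m * β ^ 2 * (E * Y ^ m * (E * Y' ^ m * (V.valuation (4 : K) * β⁻¹) ^ m))
      = ((β * (Y * Y')) ^ m * (β * β⁻¹) ^ m * V.valuation (4 : K) ^ m) * (β * E) ^ 2 := by
        simp only [mul_pow, pow_two]
        simp only [mul_assoc, mul_comm, mul_left_comm]
    _ = V.valuation (4 : K) ^ m * (β * E) ^ 2 := by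
        rw [hβYY, mul_inv_cancel₀ hb0, one_pow, one_mul, one_mul]

end Pool.Agent.T2H54.DD
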