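import Mathlib
import Pool.Agent.T2H54.DD.Core3

/-!
# Assembly
-/

namespace Pool.Agent.T2H54.DD

open Polynomial

/-! ### Discriminants and ring homomorphisms -/

theorem discr_map_of_injective {R S : Type*} [CommRing R] [CommRing S] [IsDomain S]
    (g : R →+* S) (hg : Function.Injective g) (f : R[X]) : (f.map g).discr = g f.discr := by
  by_cases hd : f.natDegree = 0
  · obtain ⟨r, rfl⟩ := natDegree_eq_zero.mp hd
    rw [map_C, discr_C, discr_C, map_one]
  · have hpos : 0 < f.degree := natDegree_pos_iff_degree_pos.mp (Nat.pos_of_ne_zero hd)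
    have hnd : (f.map g).natDegree = f.natDegree := natDegree_map_eq_of_injective hg f
    have hpos' : 0 < (f.map g).degree := by
      rw [← natDegree_pos_iff_degree_pos, hnd]
      exact Nat.pos_of_ne_zero hd
    have h1 := resultant_deriv hpos
    have h2 := resultant_deriv hpos'
    rw [hnd, derivative_map, resultant_map_map, h1, leadingCoeff_map_of_injective hg] at h2
    have hlc : g f.leadingCoeff ≠ 0 := by
      rw [map_ne_zero_iff g hg, leadingCoeff_ne_zero]
      rintro rfl
      simp at hd
    have hs : ((-1 : S) ^ (f.natDegree * (f.natDegree - 1) / 2)) ≠ 0 :=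
      pow_ne_zero _ (neg_ne_zero.mpr one_ne_zero)
    rw [map_mul, map_mul, map_pow, map_neg, map_one] at h2
    exact (mul_left_cancel₀ (mul_ne_zero hs hlc) h2).symm

/-! ### Existence of the root data -/

theorem exists_factor {K : Type*} [Field K] [IsAlgClosed K] (S : K[X]) :
    ∃ x : Fin S.natDegree → K, S = C S.leadingCoeff * ∏ j, (X - C (x j)) := by
  have hs : S.Splits := IsAlgClosed.splits S
  obtain ⟨l, hl⟩ := Quot.exists_rep S.roots
  have hl' : (l : Multiset K) = S.roots := hl
  have hlen : l.length = S.natDegree := by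
    rw [hs.natDegree_eq_card_roots, ← hl', Multiset.coe_card]
  have h1 : S = C S.leadingCoeff * ∏ j : Fin l.length, (X - C (l[j.1])) := by
    conv_lhs => rw [hs.eq_prod_roots]
    rw [← hl', Multiset.map_coe, Multiset.prod_coe, Fin.prod_univ_fun_getElem l (fun a => X - C a)]
  rw [← hlen]
  exact ⟨fun j => l[j.1], h1⟩

theorem exists_rootData {K : Type*} [Field K] [IsAlgClosed K] [CharZero K] {a : ℕ → K}
    (ha : ∀ i, a i ≠ 0) {n k : ℕ} (hn : 2 ≤ n) (hk : k < n) :
    ∃ (d ε : ℕ) (x : Fin d → K) (c : K), RootData a n k ε x c := by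
  have hcn : (RP a n k).coeff n ≠ 0 := by
    rw [coeff_RP, if_pos le_rfl]
    refine mul_ne_zero ?_ (ha n)
    rw [sub_ne_zero]
    exact_mod_cast hk.ne'
  have hdeg : (RP a n k).natDegree = n :=
    le_antisymm (natDegree_RP_le a n k) (le_natDegree_of_ne_zero hcn)
  rcases Nat.eq_zero_or_pos k with h0 | h0
  · subst h0
    obtain ⟨x, hx⟩ := exists_factor (RP a n 0).divX
    have hX : RP a n 0 = X ^ 1 * (RP a n 0).divX := by
      have h1 := X_mul_divX_add (RP a n 0)
      have h2 : (RP a n 0).coeff 0 = 0 := by
        rw [coeff_RP]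
        simp
      rw [h2, C_0, add_zero] at h1
      rw [pow_one, h1]
    refine ⟨_, 1, x, (RP a n 0).divX.leadingCoeff, hk, hn, Or.inl ⟨rfl, rfl⟩, ?_, ?_, ?_⟩
    · rw [Fintype.card_fin, natDegree_divX_eq_natDegree_tsub_one, hdeg]
      omega
    · intro j hj
      have h3 : (RP a n 0).divX.eval (x j) = 0 := by
        rw [hx, eval_mul, eval_prod, Finset.prod_eq_zero (Finset.mem_univ j) (by simp), mul_zero]
      rw [hj, ← coeff_zero_eq_eval_zero, coeff_divX, coeff_RP, if_pos (by omega)] at h3
      simp at h3
      exact ha 1 h3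
    · rw [← hx]
      exact hX
  · obtain ⟨x, hx⟩ := exists_factor (RP a n k)
    refine ⟨_, 0, x, (RP a n k).leadingCoeff, hk, hn, Or.inr ⟨h0, rfl⟩, ?_, ?_, ?_⟩
    · rw [Fintype.card_fin, hdeg, add_zero]
    · intro j hj
      have h3 : (RP a n k).eval (x j) = 0 := by
        rw [hx, eval_mul, eval_prod, Finset.prod_eq_zero (Finset.mem_univ j) (by simp), mul_zero]
      rw [hj, ← coeff_zero_eq_eval_zero, coeff_RP, if_pos (by omega)] at h3
      simp at h3
      rcases h3 with h3 | h3
      · omega
      · exact ha 0 h3
    · rw [← hx, pow_zero, one_mul]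

/-! ### The total valuation -/

/-- The number of special roots at `q`. -/
def numSp (q n k : ℕ) : ℕ := (if 0 < k ∧ q ∣ k then 1 else 0) + (if q ∣ n - k then 1 else 0)

variable {p : ℕ} {K : Type*} [Field K] {φ : MvPolynomial ℕ ℤ →+* K} {V : ValuationSubring K}
variable {ι : Type*} [Fintype ι] [DecidableEq ι] {n k ε : ℕ} {x : ι → K} {c : K}

theorem total_val (hp : p.Prime) (hD : Dom p K φ V) (H : RootData (aK φ) n k ε x c) :
    bet V n k ^ (2 * (Fintype.card ι - 1)) * TT V φ n k x
      = V.valuation (4 : K) ^ (Fintype.card ι - numSp p n k)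
        * max (V.valuation (k : K) ^ k) (V.valuation ((n - k : ℕ) : K) ^ (n - k)) ^ 2 := by
  have hn := H.hn
  have hk := H.hk
  have hκ1 : V.valuation (k : K) ≤ 1 := val_nat_le_one V k
  have hρ1 : V.valuation ((n - k : ℕ) : K) ≤ 1 := val_nat_le_one V (n - k)
  by_cases hA : 0 < k ∧ p ∣ k
  · obtain ⟨s, hs, hs'⟩ := H.exists_small hp hD hA.1 hA.2
    obtain ⟨hY, hω⟩ := H.small hp hD hA.1 hA.2 hs
    have hκlt : V.valuation (k : K) < 1 := val_nat_lt_one V hD.val_p hA.2
    have hκpow : V.valuation (k : K) ^ k < 1 := pow_lt_one₀ zero_le' hκlt hA.1.ne'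
    have hY1 : 1 < V.valuation (zK φ n k x s) := by
      by_contra hle
      rw [not_lt] at hle
      have : V.valuation (zK φ n k x s) * V.valuation (k : K) ^ k < 1 :=
        lt_of_le_of_lt (mul_le_of_le_one_left' hle) hκpow
      exact absurd hY this.ne
    by_cases hB : p ∣ n - k
    · -- two special roots
      obtain ⟨t, ht, ht'⟩ := H.exists_large hp hD hB
      obtain ⟨-, hY', hω'⟩ := H.large hp hD hB ht
      have hρlt : V.valuation ((n - k : ℕ) : K) < 1 := val_nat_lt_one V hD.val_p hB
      have hρpow : V.valuation ((n - k : ℕ) : K) ^ (n - k) < 1 :=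
        pow_lt_one₀ zero_le' hρlt (by omega)
      have hY1' : 1 < V.valuation (zK φ n k x t) := by
        by_contra hle
        rw [not_lt] at hle
        have : V.valuation (zK φ n k x t) * V.valuation ((n - k : ℕ) : K) ^ (n - k) < 1 :=
          lt_of_le_of_lt (mul_le_of_le_one_left' hle) hρpow
        exact absurd hY' this.ne
      have hst : s ≠ t := by
        rintro rfl
        exact lt_asymm hs ht
      have hk2 : 2 ≤ k := hp.two_le.trans (Nat.le_of_dvd hA.1 hA.2)
      have hr2 : 2 ≤ n - k := hp.two_le.trans (Nat.le_of_dvd (by omega) hB)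
      have hreg : ∀ j, j ≠ s → j ≠ t → V.valuation (x j) = 1 := by
        intro j hj hj'
        rcases lt_trichotomy (V.valuation (x j)) 1 with h | h | h
        · exact absurd (hs' j h) hj
        · exact h
        · exact absurd (ht' j h) hj'
      have hE := special_distinct hp hD hA.1 (show 0 < n - k by omega) (show 4 ≤ n by omega)
        hY hY' hω hω'
      have hnum : numSp p n k = 2 := by
        unfold numSp
        rw [if_pos hA, if_pos hB]
      rw [hnum]
      exact total_two hp hD H s t hst hreg hY hY1 hY' hY1' hE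
    · -- only the small root
      have hρ : V.valuation ((n - k : ℕ) : K) = 1 := val_nat_eq_one V hD.val_p hp hB
      have hnum : numSp p n k = 1 := by
        unfold numSp
        rw [if_pos hA, if_neg hB]
      have hreg : ∀ j, j ≠ s → V.valuation (x j) = 1 := by
        intro j hj
        rcases lt_trichotomy (V.valuation (x j)) 1 with h | h | h
        · exact absurd (hs' j h) hj
        · exact h
        · exact absurd h (H.no_large hp hD hB j)
      have hb : bet V n k = V.valuation (k : K) ^ k := by
        unfold bet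
        rw [hρ, one_pow, mul_one]
      rw [total_one hp hD H s hreg (by rw [hb]; exact hY) hY1, hnum, hρ, one_pow,
        max_eq_right hκpow.le, one_pow, mul_one]
  · have hκ : V.valuation (k : K) ^ k = 1 := by
      rcases Nat.eq_zero_or_pos k with h0 | h0
      · rw [h0, pow_zero]
      · rw [val_nat_eq_one V hD.val_p hp (fun h => hA ⟨h0, h⟩), one_pow]
    by_cases hB : p ∣ n - k
    · -- only the large root
      obtain ⟨t, ht, ht'⟩ := H.exists_large hp hD hB
      obtain ⟨-, hY', hω'⟩ := H.large hp hD hB ht
      have hρlt : V.valuation ((n - k : ℕ) : K) < 1 := val_nat_lt_one V hD.val_p hB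
      have hρpow : V.valuation ((n - k : ℕ) : K) ^ (n - k) < 1 :=
        pow_lt_one₀ zero_le' hρlt (by omega)
      have hY1' : 1 < V.valuation (zK φ n k x t) := by
        by_contra hle
        rw [not_lt] at hle
        have : V.valuation (zK φ n k x t) * V.valuation ((n - k : ℕ) : K) ^ (n - k) < 1 :=
          lt_of_le_of_lt (mul_le_of_le_one_left' hle) hρpow
        exact absurd hY' this.ne
      have hnum : numSp p n k = 1 := by
        unfold numSp
        rw [if_neg hA, if_pos hB]
      have hreg : ∀ j, j ≠ t → V.valuation (x j) = 1 := by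
        intro j hj
        rcases lt_trichotomy (V.valuation (x j)) 1 with h | h | h
        · exact absurd h (H.no_small hp hD hA j)
        · exact h
        · exact absurd (ht' j h) hj
      have hb : bet V n k = V.valuation ((n - k : ℕ) : K) ^ (n - k) := by
        unfold bet
        rw [hκ, one_mul]
      rw [total_one hp hD H t hreg (by rw [hb]; exact hY') hY1', hnum, hκ,
        max_eq_left hρpow.le, one_pow, mul_one]
    · -- all roots are regular
      have hρ : V.valuation ((n - k : ℕ) : K) = 1 := val_nat_eq_one V hD.val_p hp hB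
      have hnum : numSp p n k = 0 := by
        unfold numSp
        rw [if_neg hA, if_neg hB]
      have hreg : ∀ j, V.valuation (x j) = 1 := by
        intro j
        rcases lt_trichotomy (V.valuation (x j)) 1 with h | h | h
        · exact absurd h (H.no_small hp hD hA j)
        · exact h
        · exact absurd h (H.no_large hp hD hB j)
      have hb : bet V n k = 1 := by
        unfold bet
        rw [hκ, hρ, one_pow, one_mul]
      rw [total_none hp hD H hreg hb, hnum, Nat.sub_zero, hκ, hρ, one_pow, max_self, one_pow,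
        mul_one]

theorem total_nat (hp : p.Prime) (hD : Dom p K φ V) (H : RootData (aK φ) n k ε x c) :
    bet V n k ^ (2 * (Fintype.card ι - 1)) * TT V φ n k x
      = V.valuation ((4 ^ (Fintype.card ι - numSp 2 n k)
          * Nat.gcd (k ^ k) ((n - k) ^ (n - k)) ^ 2 : ℕ) : K) := by
  rw [total_val hp hD H]
  push_cast
  rw [map_mul, map_pow, map_pow, val_gcd]
  push_cast
  rw [map_pow, map_pow]
  congr 1
  by_cases h2 : p = 2
  · rw [h2]
  · have h4 : V.valuation (4 : K) = 1 := by
      have : ¬ p ∣ 4 := by
        intro h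
        have h3 : p ∣ 2 ^ 2 := by norm_num; exact h
        have h5 := hp.dvd_of_dvd_pow h3
        exact h2 ((Nat.prime_dvd_prime_iff_eq hp Nat.prime_two).mp h5)
      have := val_nat_eq_one V hD.val_p hp this
      simpa using this
    rw [h4, one_pow, one_pow]

/-! ### The double discriminant over the field -/

theorem val_PM {a b : K} (h : PM a b) : V.valuation a = V.valuation b := by
  rcases h with h | h
  · rw [h]
  · rw [h, Valuation.map_neg]

theorem val_discr_discr (hp : p.Prime) (hD : Dom p K φ V) (H : RootData (aK φ) n k ε x c) :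
    V.valuation ((fP (fun i => C (aK φ i)) n k (X : K[X])).discr.discr)
      = V.valuation ((4 ^ (Fintype.card ι - numSp 2 n k)
          * Nat.gcd (k ^ k) ((n - k) ^ (n - k)) ^ 2 : ℕ) : K) := by
  have hchar := charZero_of_injective φ hD.inj
  have hn := H.hn
  have hk := H.hk
  have ha : ∀ i, aK φ i ≠ 0 := by
    intro i h0
    have := hD.val_a hp i
    rw [h0, map_zero] at this
    exact zero_ne_one this
  have hρ0 : V.valuation ((n - k : ℕ) : K) ≠ 0 := by
    rw [Valuation.ne_zero_iff]
    exact_mod_cast (by omega : n - k ≠ 0)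
  have hcard : 0 < Fintype.card ι := by
    have := H.card
    rcases H.hε with ⟨_, h⟩ | ⟨_, h⟩ <;> omega
  -- the first discriminant
  obtain ⟨b, hb, hdisc⟩ : ∃ b : K, V.valuation b = bet V n k ∧
      (fP (fun i => C (aK φ i)) n k (X : K[X])).discr
        = C b * ∏ j, (X - C (-(zK φ n k x j))) := by
    rcases H.hε with ⟨h0, h1⟩ | ⟨h0, h1⟩
    · subst h0 h1
      have hcard' : Fintype.card ι = n - 1 := by have := H.card; omega
      have hR : RP (aK φ) n 0 = X * (C c * ∏ j, (X - C (x j))) := by
        rw [H.prod, pow_one]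
      obtain ⟨b, hb, hb'⟩ := discr_fP_zero (aK φ) (by omega : 0 < n) (ha n) x hcard' c hR
      refine ⟨b, ?_, ?_⟩
      · have h2 := val_PM (V := V) hb
        rw [map_mul, hD.val_a hp, mul_one, map_pow, H.val_c hp hD] at h2
        rw [h2]
        unfold bet
        simp
      · rw [hb']
        unfold zK
        simp
    · subst h1
      have hcard' : Fintype.card ι = n := by have := H.card; omega
      have hR : RP (aK φ) n k = C c * ∏ j, (X - C (x j)) := by
        rw [H.prod, pow_zero, one_mul]
      obtain ⟨b, hb, hb'⟩ := discr_fP_pos (aK φ) h0 hk (ha 0) (ha n) x H.ne hcard' c hR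
      refine ⟨b, ?_, hb'⟩
      have h2 := val_PM (V := V) hb
      rw [map_mul, map_mul, hD.val_a hp, hD.val_a hp, mul_one, mul_one, map_mul, map_pow,
        H.val_c hp hD, map_prod] at h2
      simp only [map_pow] at h2
      rw [Finset.prod_pow] at h2
      rw [h2]
      unfold bet
      have h3 := H.prod_roots hp hD
      rw [← h3, mul_pow]
      have h4 : V.valuation ((n - k : ℕ) : K) ^ n
          = V.valuation ((n - k : ℕ) : K) ^ k * V.valuation ((n - k : ℕ) : K) ^ (n - k) := by
        rw [← pow_add]
        congr 1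
        omega
      rw [h4]
      simp only [mul_assoc, mul_comm, mul_left_comm]
  have hb0 : b ≠ 0 := by
    intro h0
    rw [h0, map_zero] at hb
    have hbet : bet V n k ≠ 0 := by
      unfold bet
      refine mul_ne_zero ?_ (pow_ne_zero _ hρ0)
      rcases Nat.eq_zero_or_pos k with h | h
      · rw [h, pow_zero]
        exact one_ne_zero
      · refine pow_ne_zero _ ?_
        rw [Valuation.ne_zero_iff]
        exact_mod_cast h.ne'
    exact hbet hb.symm
  rw [hdisc, val_PM (V := V) (discr_prod hcard (fun j => -(zK φ n k x j)) hb0), ← total_nat hp hD H,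
    map_mul, map_pow, hb]
  congr 1
  unfold TT
  rw [map_prod]
  refine Finset.prod_congr rfl (fun i _ => ?_)
  rw [map_prod]
  refine Finset.prod_congr rfl (fun j _ => ?_)
  rw [← Valuation.map_neg]
  congr 1
  ring

end Pool.Agent.T2H54.DD
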